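import Pool.Agent.MP_62f0b1_an.Defs
import Pool.Agent.MP_62f0b1_an.Jet
import Mathlib.Analysis.SpecialFunctions.Trigonometric.ArctanDeriv
import Mathlib.Analysis.Analytic.Constructions
import Mathlib.Analysis.Analytic.Linear

/-!
Analytic integrals of `f_t` are integrals of every branch of the correspondence `r_t P ↦ q_t P`.
-/

set_option autoImplicit false
set_option linter.unusedSectionVars false

open Filter Topology Asymptotics

namespace Pool.Agent.MP_62f0b1_an.Ft

variable {n : ℕ} [NeZero n]

/-- Determinant of two plane vectors. -/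
def dt (z w : ℂ) : ℝ := z.re * w.im - z.im * w.re

theorem exists_edges {A : Type*} [AddCommGroup A] (c : Fin n → A) (h : ∑ i, c i = 0) :
    ∃ B : Fin n → A, ∀ i, B i - B (i - 1) = c i := by
  obtain ⟨m, rfl⟩ : ∃ m, n = m + 1 := ⟨n - 1, by have := NeZero.ne n; omega⟩
  refine ⟨fun i => ∑ j, if j ≤ i then c j else 0, fun i => ?_⟩
  refine Fin.cases ?_ (fun i => ?_) i
  · have : (0 : Fin (m + 1)) - 1 = Fin.last m := by
      rw [sub_eq_iff_eq_add, Fin.last_add_one]
    simp [this, Fin.le_last, h]
  · have : i.succ - 1 = i.castSucc := by rw [sub_eq_iff_eq_add, Fin.coeSucc_eq_succ]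
    simp only [this]
    rw [← Finset.sum_sub_distrib, Finset.sum_eq_single i.succ]
    · simp [Fin.le_def]
    · intro j _ hj
      have : j ≤ i.succ ↔ j ≤ i.castSucc := by
        have : j.val ≠ i.val + 1 := fun h => hj (Fin.ext h)
        simp only [Fin.le_def, Fin.val_succ, Fin.val_castSucc]
        omega
      simp [this]
    · simp

/-- Invariance of `G` under the branch given by unit vectors `u` along the sides of `P`. -/
def Cont (t : ℝ) (G : (Fin n → ℂ) → ℝ) : Prop :=
  ∀ (P u : Fin n → ℂ) (a b : Fin n → ℝ), (∀ i, ‖u i‖ = 1) →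
    (∀ i, P i - P (i - 1) = a i • u i) → (∀ i, dt (u i) (u (i - 1)) ≠ 0) → (∀ i, 0 < b i) →
    ∑ i, b i • u i = 0 → G (fun i => P i + t • u i) = G (fun i => P i - t • u (i + 1))

theorem ne_of_dt {t x : ℝ} (ht : t ≠ 0) {z w : ℂ} (h : dt z w ≠ 0) : x • z - t • w ≠ 0 := by
  intro h0
  have h1 := congrArg Complex.re h0
  have h2 := congrArg Complex.im h0
  simp at h1 h2
  refine h (mul_left_cancel₀ ht ?_)
  simp only [dt]
  linear_combination z.im * h1 - z.re * h2

theorem dt_swap (z w : ℂ) : dt z w = -dt w z := by simp only [dt]; ring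

theorem cont_of_inv {t : ℝ} (ht : 0 < t) {G : (Fin n → ℂ) → ℝ}
    (hG : AnalyticOnNhd ℝ G {P | IsPolygon P})
    (hinv : ∀ P, IsPolygon P → (∀ i, 2 * t < ‖rMap t P i - rMap t P (i - 1)‖) →
      (∀ i, 2 * t < ‖qMap t P i - qMap t P (i - 1)‖) → G (qMap t P) = G (rMap t P)) :
    Cont t G := by
  intro P u a b hu hP hd hb hs
  obtain ⟨B, hB⟩ := exists_edges _ hs
  let Q : ℝ → Fin n → ℂ := fun s => (fun i => P i + t • u i) + s • B
  let R : ℝ → Fin n → ℂ := fun s => (fun i => P i - t • u (i + 1)) + s • B
  have eQ : ∀ s i, Q s i - Q s (i - 1) = (a i + s * b i + t) • u i - t • u (i - 1) := fun s i => by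
    simp only [Q, Pi.add_apply, Pi.smul_apply]
    linear_combination (norm := module) hP i + s • hB i
  have eR : ∀ s i, R s i - R s (i - 1) = (a i + s * b i + t) • u i - t • u (i + 1) := fun s i => by
    simp only [R, Pi.add_apply, Pi.smul_apply, sub_add_cancel]
    linear_combination (norm := module) hP i + s • hB i
  have pQ : ∀ s, IsPolygon (Q s) := fun s i => by
    rw [← sub_ne_zero, eQ]
    exact ne_of_dt ht.ne' (hd i)
  have pR : ∀ s, IsPolygon (R s) := fun s i => by
    rw [← sub_ne_zero, eR]
    refine ne_of_dt ht.ne' ?_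
    have := hd (i + 1)
    rw [add_sub_cancel_right, dt_swap] at this
    exact neg_ne_zero.1 this
  have an : ∀ c : Fin n → ℂ, ∀ s, AnalyticAt ℝ (fun s : ℝ => c + s • B) s := fun c s =>
    analyticAt_const.add (analyticAt_id.smul analyticAt_const)
  have hφ : AnalyticOnNhd ℝ (fun s => G (Q s) - G (R s)) Set.univ := fun s _ =>
    (AnalyticAt.comp (g := G) (f := Q) (hG _ (pQ s)) (an _ s)).sub
      (AnalyticAt.comp (g := G) (f := R) (hG _ (pR s)) (an _ s))
  have big : ∀ᶠ s in atTop, ∀ i, 2 * t < a i + s * b i := eventually_all.2 fun i =>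
    (tendsto_atTop_add_const_left _ (a i) (tendsto_id.atTop_mul_const (hb i))).eventually_gt_atTop _
  obtain ⟨s0, hs0⟩ := eventually_atTop.1 big
  have z : ∀ s, s0 ≤ s → G (Q s) - G (R s) = 0 := fun s hs => by
    have hp : ∀ i, 0 < a i + s * b i := fun i => by linarith [hs0 s hs i]
    have e1 : ∀ i, (P + s • B) i - (P + s • B) (i - 1) = (a i + s * b i) • u i := fun i => by
      simp only [Pi.add_apply, Pi.smul_apply]
      linear_combination (norm := module) hP i + s • hB i
    have e2 : ∀ i, (t / ‖(a i + s * b i) • u i‖) • (a i + s * b i) • u i = t • u i := fun i => by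
      rw [norm_smul, hu, mul_one, Real.norm_of_nonneg (hp i).le, smul_smul,
        div_mul_cancel₀ _ (hp i).ne']
    have q1 : qMap t (P + s • B) = Q s := by
      ext i
      simp only [qMap, e1, e2]
      simp only [Q, Pi.add_apply]
      ring
    have r1 : rMap t (P + s • B) = R s := by
      ext i
      have e3 := e1 (i + 1)
      rw [add_sub_cancel_right] at e3
      simp only [rMap]
      rw [← neg_sub ((P + s • B) (i + 1)), e3, norm_neg, smul_neg, e2]
      simp only [R, Pi.add_apply]
      ring
    rw [sub_eq_zero, ← q1, ← r1]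
    have nb : ∀ i j, 2 * t < ‖(a i + s * b i + t) • u i - t • u j‖ := fun i j => by
      have := norm_sub_norm_le ((a i + s * b i + t) • u i) (t • u j)
      rw [norm_smul, norm_smul, hu, hu, Real.norm_of_nonneg ht.le,
        Real.norm_of_nonneg (by linarith [hp i])] at this
      linarith [hs0 s hs i]
    refine hinv _ (fun i => ?_) (fun i => ?_) fun i => ?_
    · rw [← sub_ne_zero, e1]
      refine smul_ne_zero (hp i).ne' fun h => ?_
      have := hu i
      rw [h, norm_zero] at this
      exact zero_ne_one this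
    · rw [r1, eR]
      exact nb _ _
    · rw [q1, eQ]
      exact nb _ _
  have := hφ.eqOn_zero_of_preconnected_of_eventuallyEq_zero isPreconnected_univ
    (Set.mem_univ (s0 + 1)) (by
      filter_upwards [Ioi_mem_nhds (lt_add_one s0)] with s hs
      exact z s (le_of_lt hs)) (Set.mem_univ 0)
  simpa [Q, R, sub_eq_zero] using this

theorem pos_rel (u : Fin n → ℂ) (j k l : Fin n) (h1 : 0 < dt (u j) (u k)) (h2 : 0 < dt (u k) (u l))
    (h3 : 0 < dt (u l) (u j)) : ∃ b : Fin n → ℝ, (∀ i, 0 < b i) ∧ ∑ i, b i • u i = 0 := by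
  set S := ∑ i, u i with hS
  set x := dt S (u k) / dt (u j) (u k) with hx
  set y := dt (u j) S / dt (u j) (u k) with hy
  set K := |x| / dt (u k) (u l) + |y| / dt (u l) (u j) with hK
  have k1 : x ≤ K * dt (u k) (u l) := by
    have : 0 ≤ |y| / dt (u l) (u j) * dt (u k) (u l) := by positivity
    rw [hK, add_mul, div_mul_cancel₀ _ h2.ne']
    linarith [le_abs_self x]
  have k2 : y ≤ K * dt (u l) (u j) := by
    have : 0 ≤ |x| / dt (u k) (u l) * dt (u l) (u j) := by positivity
    rw [hK, add_mul, div_mul_cancel₀ _ h3.ne']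
    linarith [le_abs_self y]
  have k3 : 0 ≤ K * dt (u j) (u k) := by positivity
  refine ⟨fun i => 1 + (if i = j then K * dt (u k) (u l) - x else 0) +
    (if i = k then K * dt (u l) (u j) - y else 0) + if i = l then K * dt (u j) (u k) else 0,
    fun i => ?_, ?_⟩
  · dsimp only
    split_ifs <;> linarith
  · simp only [add_smul, Finset.sum_add_distrib, one_smul, ite_smul, zero_smul,
      Finset.sum_ite_eq', Finset.mem_univ, if_true, ← hS]
    have h0 := h1.ne'
    rw [hx, hy]
    apply Complex.ext
    · simp only [Complex.add_re, Complex.smul_re, smul_eq_mul, Complex.zero_re]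
      field_simp
      simp only [dt]; ring
    · simp only [Complex.add_im, Complex.smul_im, smul_eq_mul, Complex.zero_im]
      field_simp
      simp only [dt]; ring

end Pool.Agent.MP_62f0b1_an.Ft
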