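import Pool.Agent.MP_62f0b1_an.ft.Cont
import Mathlib.Analysis.Calculus.Deriv.Prod

/-!
Transfer of leading forms at collinear polygons along a branch of the correspondence.
-/

set_option autoImplicit false
set_option linter.unusedSectionVars false

open Filter Topology Asymptotics Complex

namespace Pool.Agent.MP_62f0b1_an.Ft

variable {n : ℕ} [NeZero n]

/-- The unit vector of slope `s`. -/
noncomputable def uu (s : ℝ) : ℂ := exp (Real.arctan s * I)

theorem uu_norm (s : ℝ) : ‖uu s‖ = 1 := norm_exp_ofReal_mul_I _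

theorem uu_re (s : ℝ) : (uu s).re = Real.cos (Real.arctan s) := exp_ofReal_mul_I_re _

theorem uu_im (s : ℝ) : (uu s).im = s * Real.cos (Real.arctan s) := by
  rw [uu, exp_ofReal_mul_I_im, Real.sin_arctan, Real.cos_arctan]
  ring

theorem uu_dt (e e' s s' : ℝ) : dt (e • uu s) (e' • uu s') =
    e * e' * (s' - s) * (Real.cos (Real.arctan s) * Real.cos (Real.arctan s')) := by
  simp only [dt, smul_re, smul_im, uu_re, uu_im, smul_eq_mul]
  ring

theorem uu_deriv {m : ℝ → ℝ} (hm : DifferentiableAt ℝ m 0) :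
    HasDerivAt (fun τ => uu (τ * m τ)) (m 0 * I) 0 := by
  have h1 : HasDerivAt (fun τ => τ * m τ) (m 0) 0 := by
    simpa using (hasDerivAt_id (0 : ℝ)).fun_mul hm.hasDerivAt
  simpa [uu] using (h1.arctan.ofReal_comp.mul_const I).cexp

/-- Genericity of a first-order deformation. -/
def Gen (j : Fin n) (ξ σ : Fin n → ℝ) : Prop :=
  (∀ i, i ≠ 1 + 1 → σ i ≠ σ (i - 1)) ∧ ∑ i, σ i * (ξ i - ξ (i - 1)) ≠ 0 ∧ σ 1 < σ 0 ∧ σ 0 < σ j

variable {t : ℝ} {G : (Fin n → ℂ) → ℝ} {p ε : Fin n → ℝ} {j : Fin n} {k : ℕ}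
  {pq pr : (Fin n → ℂ) → ℝ}

theorem step_gen (hC : Cont t G) (h10 : (1 : Fin n) ≠ 0) (hε : ∀ i, ε i * ε i = 1)
    (e0 : ε 0 = -1) (e1 : ε 1 = 1) (ej : ε j = 1) (hd : p 1 - p (1 - 1) ≠ 0)
    (hq : Lead G (fun i => (p i + t * ε i : ℝ)) k pq)
    (hr : Lead G (fun i => (p i - t * ε (i + 1) : ℝ)) k pr)
    {ξ η σ : Fin n → ℝ} (hη : ∀ i, η i - η (i - 1) = (p i - p (i - 1)) * σ i) (hg : Gen j ξ σ) :
    pq (fun i => ξ i + (η i + t * ε i * σ i : ℝ) * I) =
      pr (fun i => ξ i + (η i - t * ε (i + 1) * σ (i + 1) : ℝ) * I) := by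
  obtain ⟨g1, g2, g3, g4⟩ := hg
  let κ : Fin n → ℝ := fun i => if i = 1 then -∑ i, σ i * (ξ i - ξ (i - 1)) else 0
  obtain ⟨ζ, hζ⟩ := exists_edges (fun i => σ i * (ξ i - ξ (i - 1)) + κ i)
    (by simp [κ, Finset.sum_add_distrib])
  let D : ℝ → ℝ := fun τ => p 1 - p (1 - 1) + τ * (ξ 1 - ξ (1 - 1))
  have hD0 : D 0 ≠ 0 := by simpa [D] using hd
  have hD : ∀ᶠ τ in 𝓝 (0 : ℝ), D τ ≠ 0 :=
    (by fun_prop : Continuous D).continuousAt.eventually_ne hD0
  let m : Fin n → ℝ → ℝ := fun i τ => σ i + τ * κ i / D τ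
  have hm : ∀ i, DifferentiableAt ℝ (m i) 0 := fun i =>
    (differentiableAt_const _).add (DifferentiableAt.div (by fun_prop) (by fun_prop) hD0)
  have m0 : ∀ i, m i 0 = σ i := fun i => by simp [m]
  let P : ℝ → Fin n → ℂ := fun τ i => (p i + τ * ξ i : ℝ) + (τ * η i + τ ^ 2 * ζ i : ℝ) * I
  let u : ℝ → Fin n → ℂ := fun τ i => ε i • uu (τ * m i τ)
  have dP : ∀ i, HasDerivAt (fun τ => P τ i) (ξ i + η i * I) 0 := fun i => by
    have a1 : HasDerivAt (fun τ : ℝ => p i + τ * ξ i) (ξ i) 0 := by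
      simpa using ((hasDerivAt_id (0 : ℝ)).mul_const (ξ i)).const_add (p i)
    have a2 : HasDerivAt (fun τ : ℝ => τ * η i + τ ^ 2 * ζ i) (η i) 0 := by
      simpa using ((hasDerivAt_id (0 : ℝ)).mul_const (η i)).fun_add
        ((hasDerivAt_pow 2 (0 : ℝ)).mul_const (ζ i))
    exact a1.ofReal_comp.fun_add (a2.ofReal_comp.mul_const I)
  have du : ∀ i, HasDerivAt (fun τ => t • u τ i) (t • ε i • (σ i * I)) 0 := fun i => by
    rw [← m0]
    exact ((uu_deriv (hm i)).fun_const_smul (ε i)).fun_const_smul t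
  have t1 := hq.tendsto (γ := fun τ i => P τ i + t • u τ i)
    (w := fun i => ξ i + (η i + t * ε i * σ i : ℝ) * I) (by ext i; simp [P, u, uu])
    (hasDerivAt_pi.2 fun i => ((dP i).fun_add (du i)).congr_deriv (by simp; ring))
  have t2 := hr.tendsto (γ := fun τ i => P τ i - t • u τ (i + 1))
    (w := fun i => ξ i + (η i - t * ε (i + 1) * σ (i + 1) : ℝ) * I) (by ext i; simp [P, u, uu])
    (hasDerivAt_pi.2 fun i => ((dP i).fun_sub (du (i + 1))).congr_deriv (by simp; ring))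
  have le : 𝓝[>] (0 : ℝ) ≤ 𝓝[≠] 0 := nhdsWithin_mono _ fun _ h => ne_of_gt h
  refine tendsto_nhds_unique (t1.mono_left le) ((t2.mono_left le).congr' ?_)
  have ne1 : ∀ i i', σ i ≠ σ i' → ∀ᶠ τ in 𝓝 (0 : ℝ), m i τ - m i' τ ≠ 0 := fun i i' h =>
    ((hm i).continuousAt.sub (hm i').continuousAt).eventually_ne (by
      simpa [m0, sub_eq_zero] using h)
  have lt1 : ∀ i i', σ i < σ i' → ∀ᶠ τ in 𝓝 (0 : ℝ), m i τ < m i' τ := fun i i' h =>
    (hm i).continuousAt.eventually_lt (hm i').continuousAt (by simpa [m0] using h)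
  have ne2 : ∀ᶠ τ in 𝓝[>] (0 : ℝ), ∀ i, m i τ - m (i - 1) τ ≠ 0 := eventually_all.2 fun i => by
    by_cases h : σ i = σ (i - 1)
    · have hi : i = 1 + 1 := by
        by_contra hi
        exact g1 i hi h
      subst hi
      rw [add_sub_cancel_right] at h ⊢
      filter_upwards [nhdsWithin_le_nhds hD, self_mem_nhdsWithin] with τ h1 h2
      have h3 : τ ≠ 0 := ne_of_gt h2
      simp [m, κ, h, h10, h1, h3, g2]
    · exact nhdsWithin_le_nhds (ne1 _ _ h)
  filter_upwards [nhdsWithin_le_nhds hD, self_mem_nhdsWithin, ne2,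
    nhdsWithin_le_nhds (lt1 _ _ g3), nhdsWithin_le_nhds (lt1 _ _ g4)] with τ h1 h2 h3 h4 h5
  have h2' : 0 < τ := h2
  have cp : ∀ s s', 0 < Real.cos (Real.arctan s) * Real.cos (Real.arctan s') := fun s s' =>
    mul_pos (Real.cos_arctan_pos s) (Real.cos_arctan_pos s')
  have hε0 : ∀ i, ε i ≠ 0 := fun i h => by simpa [h] using hε i
  obtain ⟨b, hb, hs⟩ := pos_rel (u τ) 1 j 0
    (by simp only [u, uu_dt, e1, ej]; exact mul_pos (by nlinarith) (cp _ _))
    (by simp only [u, uu_dt, e0, ej]; exact mul_pos (by nlinarith) (cp _ _))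
    (by simp only [u, uu_dt, e0, e1]; exact mul_pos (by nlinarith) (cp _ _))
  rw [hC (P τ) (u τ) (fun i => (p i - p (i - 1) + τ * (ξ i - ξ (i - 1))) * ε i /
    Real.cos (Real.arctan (τ * m i τ))) b (fun i => ?_) (fun i => ?_) (fun i => ?_) hb hs]
  · have := hε i
    simp only [u, norm_smul, uu_norm, mul_one, Real.norm_eq_abs]
    rw [← sq_eq_sq₀ (abs_nonneg _) zero_le_one, sq_abs]
    linarith
  · have c0 := (Real.cos_arctan_pos (τ * m i τ)).ne'
    have c1 : (p i - p (i - 1) + τ * (ξ i - ξ (i - 1))) * (τ * κ i / D τ) = τ * κ i := by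
      by_cases hi : i = 1
      · subst hi
        exact mul_div_cancel₀ _ h1
      · simp [κ, hi]
    apply Complex.ext
    · simp only [P, u, sub_re, add_re, ofReal_re, mul_re, I_re, I_im, ofReal_im, smul_re, uu_re,
        smul_eq_mul]
      field_simp
      linear_combination (-(p i - p (i - 1) + τ * (ξ i - ξ (i - 1)))) * hε i
    · simp only [P, u, sub_im, add_im, ofReal_re, mul_im, I_re, I_im, ofReal_im, smul_im, uu_im,
        smul_eq_mul]
      field_simp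
      simp only [m]
      linear_combination τ * hη i + τ ^ 2 * hζ i - τ * c1 -
        (p i - p (i - 1) + τ * (ξ i - ξ (i - 1))) * (τ * (σ i + τ * κ i / D τ)) * hε i
  · simp only [u, uu_dt]
    refine mul_ne_zero (mul_ne_zero (mul_ne_zero (hε0 _) (hε0 _)) ?_) (cp _ _).ne'
    rw [← mul_sub, ← neg_sub]
    exact mul_ne_zero h2'.ne' (neg_ne_zero.2 (h3 i))

theorem step (hC : Cont t G) (h10 : (1 : Fin n) ≠ 0) (hε : ∀ i, ε i * ε i = 1)
    (e0 : ε 0 = -1) (e1 : ε 1 = 1) (ej : ε j = 1) (hd : p 1 - p (1 - 1) ≠ 0)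
    (hq : Lead G (fun i => (p i + t * ε i : ℝ)) k pq)
    (hr : Lead G (fun i => (p i - t * ε (i + 1) : ℝ)) k pr)
    {ξ₀ η₀ σ₀ : Fin n → ℝ} (hη₀ : ∀ i, η₀ i - η₀ (i - 1) = (p i - p (i - 1)) * σ₀ i)
    (hg : Gen j ξ₀ σ₀)
    {ξ η σ : Fin n → ℝ} (hη : ∀ i, η i - η (i - 1) = (p i - p (i - 1)) * σ i) :
    pq (fun i => ξ i + (η i + t * ε i * σ i : ℝ) * I) =
      pr (fun i => ξ i + (η i - t * ε (i + 1) * σ (i + 1) : ℝ) * I) := by
  obtain ⟨g1, g2, g3, g4⟩ := hg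
  let L : (Fin n → ℝ) → (Fin n → ℝ) → ℝ → Fin n → ℝ := fun a b r i => a i + r * (b i - a i)
  have hgen : ∀ᶠ r in 𝓝 (0 : ℝ), Gen j (L ξ₀ ξ r) (L σ₀ σ r) := by
    have c : ∀ a b i, ContinuousAt (fun r => L a b r i) 0 := fun a b i => by fun_prop
    refine (eventually_all.2 fun i => eventually_all.2 fun hi => ?_).and
      (Eventually.and ?_ (Eventually.and ?_ ?_))
    · refine (((c σ₀ σ i).sub (c σ₀ σ (i - 1))).eventually_ne (y := 0) ?_).mono
        fun r hr => sub_ne_zero.1 hr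
      simpa [L, sub_eq_zero] using g1 i hi
    · exact ContinuousAt.eventually_ne (by fun_prop) (by simpa [L] using g2)
    · exact (c σ₀ σ 1).eventually_lt (c σ₀ σ 0) (by simpa [L] using g3)
    · exact (c σ₀ σ 0).eventually_lt (c σ₀ σ j) (by simpa [L] using g4)
  set v₀ : Fin n → ℂ := fun i => ξ₀ i + (η₀ i + t * ε i * σ₀ i : ℝ) * I with hv₀
  set w₀ : Fin n → ℂ := fun i => ξ₀ i + (η₀ i - t * ε (i + 1) * σ₀ (i + 1) : ℝ) * I with hw₀
  set v : Fin n → ℂ := fun i => ξ i + (η i + t * ε i * σ i : ℝ) * I with hv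
  set w : Fin n → ℂ := fun i => ξ i + (η i - t * ε (i + 1) * σ (i + 1) : ℝ) * I with hw
  obtain ⟨Q₁, hQ₁⟩ := hq.line v₀ (v - v₀)
  obtain ⟨Q₂, hQ₂⟩ := hr.line w₀ (w - w₀)
  have e : Q₁ = Q₂ := Polynomial.eq_of_infinite_eval_eq _ _ (infinite_of_mem_nhds (0 : ℝ) (by
    filter_upwards [hgen] with r hr'
    have := step_gen hC h10 hε e0 e1 ej hd hq hr (η := L η₀ η r) (fun i => by
      simp only [L]
      linear_combination (1 - r) * hη₀ i + r * hη i) hr'
    rw [← hQ₁, ← hQ₂]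
    convert this using 2 <;> ext i <;> simp [L, hv₀, hv, hw₀, hw] <;> ring))
  have a1 := hQ₁ 1
  have a2 := hQ₂ 1
  rw [one_smul, add_sub_cancel] at a1 a2
  rw [a1, a2, e]

end Pool.Agent.MP_62f0b1_an.Ft
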