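import Pool.Agent.MP_62f0b1_an.ft.Curve

/-!
A loop of four branches at a collinear polygon whose linear part is a transvection.
-/

set_option autoImplicit false
set_option linter.unusedSectionVars false

open Filter Topology Asymptotics Complex

namespace Pool.Agent.MP_62f0b1_an.Ft

section gen
variable {E : Type*} [NormedAddCommGroup E] [NormedSpace ℝ E] {G : E → ℝ} {x y z : E}

theorem ord_back {D : E → E} (h : Tr G x y D) (hx : AnalyticAt ℝ G x) {k : ℕ} (hk : Ord G y k) :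
    Ord G x k := by
  induction k with
  | zero => exact ord_zero hx
  | succ k ih =>
    obtain ⟨p, hp⟩ := exists_lead hx (ih (IsBigO.trans hk (isBigO_pow_le (Nat.le_succ k))))
    have hq : Lead G y k (fun _ => 0) := ⟨0, fun _ => rfl, by simpa [Ord] using hk⟩
    exact hp.ord_succ fun v => h k _ _ hp hq v

theorem tr_trans {D D' : E → E} (h : Tr G x y D) (h' : Tr G y z D') (hy : AnalyticAt ℝ G y) :
    Tr G x z (D' ∘ D) := by
  intro k p q hp hq v
  obtain ⟨r, hr⟩ := exists_lead hy (ord_back h' hy hq.ord)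
  rw [h k p r hp hr v, h' k r q hr hq]
  rfl

theorem lead_comp {F : Type*} [NormedAddCommGroup F] [NormedSpace ℝ F] {k : ℕ} {p : E → ℝ}
    (h : Lead G x k p) (L : F →L[ℝ] E) {G' : F → ℝ} {x' : F}
    (hG : ∀ v, G' (x' + v) = G (x + L v)) : Lead G' x' k (fun v => p (L v)) := by
  obtain ⟨P, hP, h2⟩ := h
  refine ⟨P.compContinuousLinearMap fun _ => L, fun v => by simp [hP], ?_⟩
  have t1 : Tendsto L (𝓝 0) (𝓝 0) := by simpa using L.continuous.tendsto 0
  simp only [hG]
  exact (h2.comp_tendsto t1).trans ((L.isBigO_id (𝓝 0)).norm_norm.pow (k + 1))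

end gen

variable {m : ℕ}

/-- Alternating signs. -/
def sg (i : Fin (m + 5)) : ℝ := if i = 0 then -1 else (-1) ^ i.val

/-- A vector with prescribed entries at the places `1` and `2`. -/
def wv (c : Fin (m + 5) → ℝ) (x y : ℝ) (i : Fin (m + 5)) : ℝ :=
  if i = 1 then x else if i = 2 then y else c i

/-- The collinear base polygons. -/
def pt (m : ℕ) (t x y : ℝ) : Fin (m + 5) → ℂ := fun i => (t * wv sg x y i : ℝ)

theorem a01 : (0 : Fin (m + 5)) + 1 = 1 := zero_add _
theorem a11 : (1 : Fin (m + 5)) + 1 = 2 := rfl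
theorem a21 : (2 : Fin (m + 5)) + 1 = 3 := rfl
theorem a31 : (3 : Fin (m + 5)) + 1 = 4 := rfl
theorem s11 : (1 : Fin (m + 5)) - 1 = 0 := sub_self _
theorem s21 : (2 : Fin (m + 5)) - 1 = 1 := by rw [← a11, add_sub_cancel_right]
theorem s31 : (3 : Fin (m + 5)) - 1 = 2 := by rw [← a21, add_sub_cancel_right]
theorem s41 : (4 : Fin (m + 5)) - 1 = 3 := by rw [← a31, add_sub_cancel_right]
theorem v3 : (3 : Fin (m + 5)).val = 3 := rfl
theorem v4 : (4 : Fin (m + 5)).val = 4 := rfl

theorem sg_sq (i : Fin (m + 5)) : sg i * sg i = 1 := by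
  unfold sg
  split_ifs
  · norm_num
  · rw [← pow_add, ← two_mul, pow_mul]; norm_num

theorem sg_succ (hm : Even m) {i : Fin (m + 5)} (hi : i ≠ 0) : sg (i + 1) = -sg i := by
  by_cases h : i = Fin.last _
  · subst h
    have : Even (m + 4) := hm.add (by decide)
    simp [sg, this.neg_one_pow]
  · have h1 : i + 1 ≠ 0 := fun h0 => h (add_right_cancel (h0.trans (Fin.last_add_one _).symm))
    simp only [sg, hi, h1, if_false, Fin.val_add_one_of_lt (Fin.lt_last_iff_ne_last.2 h)]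
    ring

@[simp] theorem wv0 (c : Fin (m + 5) → ℝ) (x y : ℝ) : wv c x y 0 = c 0 := rfl
@[simp] theorem wv1 (c : Fin (m + 5) → ℝ) (x y : ℝ) : wv c x y 1 = x := rfl
@[simp] theorem wv2 (c : Fin (m + 5) → ℝ) (x y : ℝ) : wv c x y 2 = y := rfl
@[simp] theorem wv3 (c : Fin (m + 5) → ℝ) (x y : ℝ) : wv c x y 3 = c 3 := rfl
@[simp] theorem wv4 (c : Fin (m + 5) → ℝ) (x y : ℝ) : wv c x y 4 = c 4 := rfl
@[simp] theorem sg0 : sg (0 : Fin (m + 5)) = -1 := rfl
@[simp] theorem sg3 : sg (3 : Fin (m + 5)) = -1 := by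
  change (-1 : ℝ) ^ 3 = -1
  norm_num
@[simp] theorem sg4 : sg (4 : Fin (m + 5)) = 1 := by
  change (-1 : ℝ) ^ 4 = 1
  norm_num

theorem wv_out (c : Fin (m + 5) → ℝ) (x y : ℝ) {i : Fin (m + 5)} (h1 : i ≠ 1) (h2 : i ≠ 2) :
    wv c x y i = c i := by simp [wv, h1, h2]

theorem wv_succ (c : Fin (m + 5) → ℝ) (x y : ℝ) {i : Fin (m + 5)} (h1 : i ≠ 0) (h2 : i ≠ 1) :
    wv c x y (i + 1) = c (i + 1) :=
  wv_out c x y (fun h => h1 (add_right_cancel (h.trans a01.symm)))
    (fun h => h2 (add_right_cancel (h.trans a11.symm)))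

theorem wv_pred (c : Fin (m + 5) → ℝ) (x y : ℝ) {i : Fin (m + 5)} (h1 : i ≠ 2) (h2 : i ≠ 3) :
    wv c x y (i - 1) = c (i - 1) :=
  wv_out c x y (fun h => h1 ((sub_eq_iff_eq_add.1 h).trans a11))
    (fun h => h2 ((sub_eq_iff_eq_add.1 h).trans a21))

theorem cases4 {P : Fin (m + 5) → Prop} (h0 : P 0) (h1 : P 1) (h2 : P 2) (h3 : P 3)
    (h : ∀ i, i ≠ 0 → i ≠ 1 → i ≠ 2 → i ≠ 3 → P i) (i : Fin (m + 5)) : P i := by
  by_cases a0 : i = 0
  · rwa [a0]
  by_cases a1 : i = 1
  · rwa [a1]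
  by_cases a2 : i = 2
  · rwa [a2]
  by_cases a3 : i = 3
  · rwa [a3]
  exact h i a0 a1 a2 a3

theorem n02 : (0 : Fin (m + 5)) ≠ 2 := Fin.ne_of_val_ne (show 0 ≠ 2 by decide)
theorem n03 : (0 : Fin (m + 5)) ≠ 3 := Fin.ne_of_val_ne (show 0 ≠ 3 by decide)
theorem n04 : (0 : Fin (m + 5)) ≠ 4 := Fin.ne_of_val_ne (show 0 ≠ 4 by decide)
theorem n34 : (3 : Fin (m + 5)) ≠ 4 := Fin.ne_of_val_ne (show 3 ≠ 4 by decide)
theorem n30 : (3 : Fin (m + 5)) ≠ 0 := n03.symm
theorem n31 : (3 : Fin (m + 5)) ≠ 1 := Fin.ne_of_val_ne (show 3 ≠ 1 by decide)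

theorem wv_neg (c : Fin (m + 5) → ℝ) (x y : ℝ) : wv c x y (-1) = c (-1) := by
  simpa using wv_pred c x y n02 n03

theorem sg_pred (hm : Even m) {i : Fin (m + 5)} (hi : i ≠ 1) : sg (i - 1) = -sg i := by
  have := sg_succ hm (i := i - 1) (fun h => hi ((sub_eq_iff_eq_add.1 h).trans a01))
  rw [sub_add_cancel] at this
  rw [this, neg_neg]

theorem pt_polygon (hm : Even m) {t x y : ℝ} (ht : t ≠ 0) (hx : x ≠ -1) (hxy : y ≠ x)
    (hy : -1 ≠ y) : IsPolygon (pt m t x y) := by
  intro i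
  simp only [pt, ne_eq, ofReal_inj, mul_right_inj' ht]
  revert i
  refine cases4 ?_ (by simpa [s11]) (by simpa [s21]) (by simpa [s31]) fun i _ h1 h2 h3 => ?_
  · rw [wv_pred _ _ _ n02 n03, sg_pred hm zero_ne_one]
    norm_num
  · rw [wv_pred _ _ _ h2 h3, sg_pred hm h1, wv_out _ _ _ h1 h2]
    intro h
    have := sg_sq i
    nlinarith

variable {t : ℝ} {G : (Fin (m + 5) → ℂ) → ℝ}

theorem step' (hm : Even m) (ht : t ≠ 0) (hC : Cont t G) {a b e : ℝ} (ha : a ≠ 0) (hb : b - a ≠ 0)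
    (he : e * e = 1) {k : ℕ} {pq pr : (Fin (m + 5) → ℂ) → ℝ}
    (hq : Lead G (pt m t (a + 1) (b + e)) k pq) (hr : Lead G (pt m t (a - e) (b + 1)) k pr)
    (ξ v w : Fin (m + 5) → ℝ) (h x y : ℝ)
    (hA : ∀ i, v (i + 1) + w i = wv (fun _ => h) x y (i + 1) + wv (fun _ => h) x y i)
    (h1 : x - h = a * (v 1 - x)) (h2 : y - x = (b - a) * e * (v 2 - y)) (h3 : h - y = b * (v 3 - h)) :
    pq (fun i => ξ i + v i * I) = pr (fun i => ξ i + w i * I) := by
  have hε : ∀ i, wv sg 1 e i * wv (m := m) sg 1 e i = 1 := fun i => by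
    unfold wv
    split_ifs
    · norm_num
    · exact he
    · exact sg_sq i
  let c : Fin (m + 5) → ℝ := fun i => if i = 0 ∨ i = 3 then 0 else sg i
  have c0 : c 0 = 0 := by simp [c]
  have c3 : c 3 = 0 := by simp [c]
  have c4 : c 4 = 1 := by simp [c, n04.symm, n34.symm]
  have := step (p := wv (fun _ => 0) (t * a) (t * b)) (ε := wv sg 1 e) (j := 4) (k := k) (pq := pq)
    (pr := pr) hC one_ne_zero hε rfl rfl sg4 (by simp [ht, ha])
    (by
      convert hq using 3 with i
      revert i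
      refine cases4 (by simp [pt]) (by simp [pt, mul_add]) (by simp [pt, mul_add]) (by simp [pt])
        fun i _ h1 h2 _ => by simp [pt, wv_out _ _ _ h1 h2])
    (by
      convert hr using 3 with i
      revert i
      refine cases4 (by simp [pt]) (by simp [pt, a11, mul_sub]) (by simp [pt, a21, mul_add])
        (by simp [pt, a31]) fun i h0 h1 h2 _ => by
          simp [pt, wv_out _ _ _ h1 h2, wv_succ _ _ _ h0 h1, sg_succ hm h0])
    (ξ₀ := fun i => if i = 0 then 1 else 0) (η₀ := wv (fun _ => 0) (-(t * a * (b - a) ^ 2)) 0)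
    (σ₀ := wv c (-(b - a) ^ 2) (a * (b - a)))
    (cases4 (by simp [wv_neg]) (by simp) (by simp [s21]; ring)
      (by simp [s31, c3]) fun i _ h1 h2 h3 => by simp [wv_out _ _ _ h1 h2, wv_pred _ _ _ h2 h3])
    ⟨cases4 (fun _ => ?_) (fun _ => by simp [c0, hb]) (fun h => absurd a11.symm h)
      (fun _ => by simp [s31, c3, ha, hb]) fun i h0 h1 h2 h3 _ => ?_, ?_,
      by simp [c0, hb, sq_pos_iff], by simp [c0, c4]⟩
    (ξ := ξ) (η := wv (fun _ => h) x y)
    (σ := fun i => wv sg 1 e i * (v i - wv (fun _ => h) x y i) / t)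
    (cases4 (by simp [wv_neg]) (by simp; field_simp; linarith)
      (by simp [s21]; field_simp; linarith) (by simp [s31]; field_simp; linarith)
      fun i _ h1 h2 h3 => by simp [wv_out _ _ _ h1 h2, wv_pred _ _ _ h2 h3])
  · convert this using 2 <;> ext i <;> congr 3 <;> field_simp
    · linear_combination (wv (fun _ => h) x y i - v i) * hε i
    · linear_combination hA i - (wv (fun _ => h) x y (i + 1) - v (i + 1)) * hε (i + 1)
  · rw [wv_pred _ _ _ n02 n03, wv0, c0]
    have h1 : ¬ ((0 : Fin (m + 5)) - 1 = 0 ∨ (0 : Fin (m + 5)) - 1 = 3) := by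
      simp only [sub_eq_iff_eq_add, a31]
      simp [n04]
    simp only [c, h1, if_false, sg_pred hm zero_ne_one]
    simp
  · rw [wv_pred _ _ _ h2 h3, wv_out _ _ _ h1 h2]
    have h4 : sg i ≠ 0 := fun h => by simpa [h] using sg_sq i
    simp only [c, h0, h3, or_self, if_false, sg_pred hm h1]
    split_ifs
    · exact h4
    · intro h5
      exact h4 (by linarith)
  · simp only [mul_sub, Finset.sum_sub_distrib, sub_eq_zero]
    simp [c0, hb]

/-- Heights on the `Q` side from heights on the `R` side. -/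
def rq (h x y : ℝ) (w : Fin (m + 5) → ℝ) (i : Fin (m + 5)) : ℝ :=
  wv (fun _ => h) x y i + wv (fun _ => h) x y (i - 1) - w (i - 1)

/-- Heights on the `R` side from heights on the `Q` side. -/
def qr (h x y : ℝ) (v : Fin (m + 5) → ℝ) (i : Fin (m + 5)) : ℝ :=
  wv (fun _ => h) x y (i + 1) + wv (fun _ => h) x y i - v (i + 1)

/-- A map on heights as a map on tangent vectors. -/
def lf (D : (Fin (m + 5) → ℝ) → Fin (m + 5) → ℝ) (z : Fin (m + 5) → ℂ) (i : Fin (m + 5)) : ℂ :=
  (z i).re + D (fun i => (z i).im) i * I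

theorem tr_rq (hm : Even m) (ht : t ≠ 0) (hC : Cont t G) {a b e : ℝ} (ha : a ≠ 0)
    (hb : b - a ≠ 0) (he : e * e = 1) (h x y : (Fin (m + 5) → ℝ) → ℝ)
    (h1 : ∀ w, x w - h w = a * (h w - w 0)) (h2 : ∀ w, y w - x w = (b - a) * e * (x w - w 1))
    (h3 : ∀ w, h w - y w = b * (y w - w 2)) :
    Tr G (pt m t (a - e) (b + 1)) (pt m t (a + 1) (b + e))
      (lf fun w => rq (h w) (x w) (y w) w) := by
  intro k p q hp hq z
  set w : Fin (m + 5) → ℝ := fun i => (z i).im with hw
  have := step' hm ht hC ha hb he hq hp (fun i => (z i).re) (rq (h w) (x w) (y w) w) w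
    (h w) (x w) (y w) (fun i => by simp [rq]) (by simp only [rq, s11, wv0, wv1]; linear_combination h1 w)
    (by simp only [rq, s21, wv1, wv2]; linear_combination h2 w)
    (by simp only [rq, s31, wv2, wv3]; linear_combination h3 w)
  simp only [hw, re_add_im] at this
  exact this.symm

theorem tr_qr (hm : Even m) (ht : t ≠ 0) (hC : Cont t G) {a b e : ℝ} (ha : a ≠ 0)
    (hb : b - a ≠ 0) (he : e * e = 1) (h x y : (Fin (m + 5) → ℝ) → ℝ)
    (h1 : ∀ v, x v - h v = a * (v 1 - x v)) (h2 : ∀ v, y v - x v = (b - a) * e * (v 2 - y v))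
    (h3 : ∀ v, h v - y v = b * (v 3 - h v)) :
    Tr G (pt m t (a + 1) (b + e)) (pt m t (a - e) (b + 1))
      (lf fun v => qr (h v) (x v) (y v) v) := by
  intro k p q hp hq z
  set v : Fin (m + 5) → ℝ := fun i => (z i).im with hv
  have := step' hm ht hC ha hb he hp hq (fun i => (z i).re) v (qr (h v) (x v) (y v) v)
    (h v) (x v) (y v) (fun i => by simp [qr]) (h1 v) (h2 v) (h3 v)
  simp only [hv, re_add_im] at this
  exact this

/-- The direction of the transvection. -/
noncomputable def ww (i : Fin (m + 5)) : ℂ := (wv (fun i => if i = 3 then 1 else 0) 2 3 i : ℝ) * I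

theorem lead_shift {x : Fin (m + 5) → ℂ} (hx : IsPolygon x)
    (hT : ∀ P, IsPolygon P → ∀ c : ℂ, G (fun i => P i + c) = G P)
    (ho : IsOpen {P : Fin (m + 5) → ℂ | IsPolygon P}) (c : (Fin (m + 5) → ℂ) → ℂ) :
    Tr G x x (fun v i => v i + c v) := tr_of_curves fun v => by
  have d : ∀ w : Fin (m + 5) → ℂ, HasDerivAt (fun τ : ℝ => x + τ • w) w 0 := fun w =>
    (((hasDerivAt_id (0 : ℝ)).smul_const w).const_add x).congr_deriv (by simp)
  refine ⟨_, _, by simp, by simp, d v, d _, ?_⟩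
  filter_upwards [(d v).continuousAt.eventually (ho.mem_nhds (by simpa using hx))] with τ hτ
  rw [← hT _ hτ (τ • c v)]
  congr 1
  ext i
  simp only [Pi.add_apply, Pi.smul_apply, smul_add, add_assoc]

theorem dir_loop (hm : Even m) (ht : t ≠ 0) (hC : Cont t G)
    (hG : AnalyticOnNhd ℝ G {P | IsPolygon P})
    (hT : ∀ P, IsPolygon P → ∀ c : ℂ, G (fun i => P i + c) = G P)
    (ho : IsOpen {P : Fin (m + 5) → ℂ | IsPolygon P}) : Dir G (pt m t 0 1) ww := by
  have f1 := tr_rq hm ht hC (a := 1) (b := 0) (e := 1) (by norm_num) (by norm_num) (by norm_num)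
    (fun w => w 1) (fun w => 2 * w 1 - w 0) (fun w => w 1)
    (fun w => by ring) (fun w => by ring) (fun w => by ring)
  have f2 := tr_qr hm ht hC (a := 1) (b := 2) (e := -1) (by norm_num) (by norm_num) (by norm_num)
    (fun v => 2 * v 2 - v 1) (fun v => v 2) (fun v => 6 * v 2 - 3 * v 1 - 2 * v 3)
    (fun w => by ring) (fun w => by ring) (fun w => by ring)
  have f3 := tr_qr hm ht hC (a := 1) (b := 2) (e := 1) (by norm_num) (by norm_num) (by norm_num)
    (fun v => (v 1 + 2 * v 2 + 8 * v 3) / 11) (fun v => (6 * v 1 + v 2 + 4 * v 3) / 11)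
    (fun v => (3 * v 1 + 6 * v 2 + 2 * v 3) / 11)
    (fun w => by ring) (fun w => by ring) (fun w => by ring)
  have f4 := tr_rq hm ht hC (a := -1) (b := 2) (e := -1) (by norm_num) (by norm_num) (by norm_num)
    (fun w => 9 * w 1 - 6 * w 0 - 2 * w 2) (fun w => w 0) (fun w => 3 * w 1 - 2 * w 0)
    (fun w => by ring) (fun w => by ring) (fun w => by ring)
  norm_num only at f1 f2 f3 f4
  have an : ∀ x y : ℝ, x ≠ -1 → y ≠ x → -1 ≠ y → AnalyticAt ℝ G (pt m t x y) :=
    fun x y h1 h2 h3 => hG _ (pt_polygon hm ht h1 h2 h3)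
  have f5 := lead_shift (G := G) (pt_polygon (x := 0) (y := 1) hm ht (by norm_num) (by norm_num)
    (by norm_num)) hT ho 
    (fun z => (48 / 11 * (-2 * (z 1).im + (z 2).im + (z 3).im) : ℝ) * I)
  have h := tr_trans (tr_trans (tr_trans (tr_trans f1 f2 (an _ _ (by norm_num) (by norm_num)
    (by norm_num))) f3 (an _ _ (by norm_num) (by norm_num) (by norm_num))) f4
    (an _ _ (by norm_num) (by norm_num) (by norm_num))) f5
    (an _ _ (by norm_num) (by norm_num) (by norm_num))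
  let l : (Fin (m + 5) → ℂ) →ₗ[ℝ] ℝ :=
    { toFun := fun z => 16 / 11 * (-2 * (z 1).im + (z 2).im + (z 3).im)
      map_add' := fun a b => by simp; ring
      map_smul' := fun s a => by simp; ring }
  refine dir_of_unipotent l (e := fun i => (wv (fun _ => 0) 1 0 i : ℝ) * I)
    (by simp [l, ww]; norm_num) (by simp [l]) ?_
  convert h using 1
  ext z i
  apply Complex.ext
  · simp [lf, ww]
  · revert i
    refine cases4 ?_ ?_ ?_ ?_ fun i h0 h1 h2 h3 => ?_
    · simp [lf, ww, l, rq, qr, wv_neg, s21, s31, s41, a11, a21, a31, n03]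
      ring
    · simp [lf, ww, l, rq, qr, wv_neg, s21, s31, s41, a11, a21, a31]
      ring
    · simp [lf, ww, l, rq, qr, wv_neg, s21, s31, s41, a11, a21, a31]
      ring
    · simp [lf, ww, l, rq, qr, wv_neg, s21, s31, s41, a11, a21, a31]
      ring
    · simp [lf, ww, l, rq, qr, wv_neg, s21, s31, s41, a11, a21, a31, wv_out _ _ _ h1 h2,
        wv_succ _ _ _ h0 h1, wv_pred _ _ _ h2 h3, h3]
      ring

/-- Reversal of the order of the vertices followed by the half turn. -/
noncomputable def mir (m : ℕ) : (Fin (m + 5) → ℂ) →L[ℝ] Fin (m + 5) → ℂ :=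
  -ContinuousLinearMap.pi fun i => ContinuousLinearMap.proj (1 + 1 - i)

theorem mir_apply (P : Fin (m + 5) → ℂ) (i : Fin (m + 5)) : mir m P i = -P (1 + 1 - i) := rfl

theorem mir_mir (P : Fin (m + 5) → ℂ) : mir m (mir m P) = P := by
  ext i
  simp [mir_apply]

theorem mir_polygon {P : Fin (m + 5) → ℂ} (h : IsPolygon P) : IsPolygon (mir m P) := fun i hi => by
  have := h (1 + 1 - (i - 1))
  rw [show 1 + 1 - (i - 1) - 1 = 1 + 1 - i by abel] at this
  exact this (neg_inj.1 hi).symm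

theorem mir_cont (hC : Cont t G) : Cont t fun P => G (mir m P) := by
  intro P u a b hu hP hd hb hs
  have e1 : ∀ i : Fin (m + 5), 1 + 1 + 1 - i - 1 = 1 + 1 - i := fun i => by abel
  have e2 : mir m (fun i => P i + t • u i) =
      fun i => mir m P i - t • u (1 + 1 + 1 - (i + 1)) := by
    ext i
    rw [show 1 + 1 + 1 - (i + 1) = 1 + 1 - i by abel, mir_apply, mir_apply]
    ring
  have e3 : mir m (fun i => P i - t • u (i + 1)) =
      fun i => mir m P i + t • u (1 + 1 + 1 - i) := by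
    ext i
    rw [mir_apply, mir_apply, show 1 + 1 - i + 1 = 1 + 1 + 1 - i by abel]
    ring
  have e4 : ∑ i, b (1 + 1 + 1 - i) • u (1 + 1 + 1 - i) = 0 := by
    have := Equiv.sum_comp (Equiv.subLeft (1 + 1 + 1 : Fin (m + 5))) fun i => b i • u i
    simp only [Equiv.subLeft_apply] at this
    rw [this, hs]
  change G _ = G _
  rw [e2, e3]
  refine (hC (mir m P) (fun i => u (1 + 1 + 1 - i)) (fun i => a (1 + 1 + 1 - i))
    (fun i => b (1 + 1 + 1 - i)) (fun i => hu _) (fun i => ?_) (fun i => ?_) (fun i => hb _) e4).symm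
  · rw [← hP, e1, mir_apply, mir_apply, show 1 + 1 - (i - 1) = 1 + 1 + 1 - i by abel]
    ring
  · have := hd (1 + 1 + 1 - (i - 1))
    rw [show 1 + 1 + 1 - (i - 1) - 1 = 1 + 1 + 1 - i by abel, dt_swap] at this
    exact neg_ne_zero.1 this

theorem mir_pt (hm : Even m) (t : ℝ) : mir m (pt m t 0 1) = pt m t 0 1 := by
  have key : ∀ j : ℕ, j < m + 3 → ∀ i : Fin (m + 5), i.val = j + 2 →
      wv sg 0 1 (1 + 1 - i) = -wv sg 0 1 i := by
    have s2 : sg (2 : Fin (m + 5)) = 1 := by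
      change (-1 : ℝ) ^ 2 = 1
      norm_num
    have w : ∀ i : Fin (m + 5), i ≠ 1 → wv sg 0 1 i = sg i := fun i h => by
      by_cases h2 : i = 2
      · rw [h2, s2, wv2]
      · exact wv_out _ _ _ h h2
    intro j
    induction j with
    | zero =>
      intro _ i hi
      have : i = 2 := Fin.ext hi
      simp [this, a11]
    | succ j ih =>
      intro hj i hi
      have h0 : i ≠ 0 := fun h => by simp [h] at hi
      have h1 : i ≠ 1 := fun h => by simp [h] at hi
      have v : (i - 1).val = j + 2 := by rw [Fin.val_sub_one_of_ne_zero h0]; omega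
      have h2 : i - 1 ≠ 1 := fun h => by simp [h] at v
      have h3 := ih (by omega) _ v
      rw [show 1 + 1 - (i - 1) = 1 + 1 - i + 1 by abel, w _ h2, sg_pred hm h1] at h3
      have h4 : 1 + 1 - i ≠ 0 := fun h => h2 (by rw [← sub_eq_zero.1 h]; abel)
      have h5 : 1 + 1 - i ≠ 1 := fun h => h1 (by
        rw [sub_eq_iff_eq_add] at h
        exact (add_left_cancel h).symm)
      rw [w _ (fun h => h4 (add_right_cancel (h.trans a01.symm))), sg_succ hm h4] at h3
      rw [w _ h5, w _ h1]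
      linarith
  ext i
  simp only [mir_apply, pt]
  by_cases h0 : i = 0
  · simp [h0, a11]
  by_cases h1 : i = 1
  · simp [h1]
  have a0 : i.val ≠ 0 := fun h => h0 (Fin.ext h)
  have a1 : i.val ≠ 1 := fun h => h1 (Fin.ext h)
  rw [key (i.val - 2) (by omega) i (by omega)]
  simp

theorem dir_mir (hm : Even m) (ht : t ≠ 0) (hC : Cont t G)
    (hG : AnalyticOnNhd ℝ G {P | IsPolygon P})
    (hT : ∀ P, IsPolygon P → ∀ c : ℂ, G (fun i => P i + c) = G P)
    (ho : IsOpen {P : Fin (m + 5) → ℂ | IsPolygon P}) : Dir G (pt m t 0 1) (mir m ww) := by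
  have h := dir_loop hm ht (mir_cont hC)
    (fun P hP => (hG _ (mir_polygon hP)).comp ((mir m).analyticAt P))
    (fun P hP c => by
      rw [← hT _ (mir_polygon hP) (-c)]
      congr 1
      ext i
      simp only [mir_apply]
      ring) ho
  intro k p hp v τ
  have := h k _ (lead_comp hp (mir m) fun v => by rw [map_add, mir_pt hm]) (mir m v) τ
  simpa only [map_add, map_smul, mir_mir] using this

end Pool.Agent.MP_62f0b1_an.Ft
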