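import Pool.Agent.MP_62f0b1_an.ft.Loop
import Pool.Agent.MP_62f0b1_an.xi.Analytic

/-!
Real-analytic commuting integrals of `f_t` on odd-gons, `n ≥ 5`, are dependent everywhere.
-/

set_option autoImplicit false
set_option linter.unusedSectionVars false

open Set Filter Topology Asymptotics Module
open scoped ContDiff

namespace Pool.Agent.MP_62f0b1_an.Ft

open Xi

theorem hom_zero {κ : Type*} [Fintype κ] [DecidableEq κ] {f : (κ → ℝ) → ℝ} {j : ℕ}
    (hh : ∀ (s : ℝ) z, f (s • z) = s ^ j * f z) (h : Od f (j + 1)) (z : κ → ℝ) : f z = 0 := by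
  obtain ⟨C, ρ, -, hρ, hC⟩ := Od.ball h
  refine zero_of_small (C := C * ‖z‖ ^ (j + 1)) ?_
  filter_upwards [ev_small_ray z hρ] with s ⟨hs, hs'⟩
  have e : ‖s • z‖ = s * ‖z‖ := by rw [norm_smul, Real.norm_eq_abs, abs_of_pos hs]
  have := hC (s • z) (by rwa [e])
  rw [hh, e, Real.norm_eq_abs, abs_mul, abs_of_pos (pow_pos hs j)] at this
  refine le_of_mul_le_mul_left (this.trans (le_of_eq (by ring))) (pow_pos hs j)

theorem ld_dir {κ : Type*} [Fintype κ] [DecidableEq κ] {E : Type*} [NormedAddCommGroup E]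
    [NormedSpace ℝ E] {G : E → ℝ} {Y w : E} (hG : AnalyticAt ℝ G Y) (e : (κ → ℝ) ≃L[ℝ] E)
    (hw : Dir G Y w) {j : ℕ} {H : MvPolynomial κ ℝ} (hL : Ld (fun δ => G (Y + e δ)) j H)
    (z : κ → ℝ) : fderiv ℝ (ev H) z (e.symm w) = 0 := by
  have ha : AnalyticAt ℝ (fun δ => G (Y + e δ)) 0 :=
    AnalyticAt.comp (g := G) (by simpa using hG) (analyticAt_const.add (e.analyticAt 0))
  obtain ⟨p, hp⟩ := exists_lead ha (k := j) (by simpa [Ord, Od] using hL.od)
  have h1 := hw j _ (lead_comp hp (e.symm : E →L[ℝ] (κ → ℝ)) (G' := G) (x' := Y) fun v => by simp)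
  have h2 : ∀ z, p z = ev H z := fun z => sub_eq_zero.1 (hom_zero (f := fun z => p z - ev H z)
    (fun s z => by rw [hp.hom, ev_hom hL.1, mul_sub]) (by
      obtain ⟨-, -, h3⟩ := hp
      simpa [Od] using IsBigO.sub hL.2 h3) z)
  have d1 : HasDerivAt (fun s : ℝ => z + s • e.symm w) (e.symm w) 0 :=
    (((hasDerivAt_id (0 : ℝ)).smul_const (e.symm w)).const_add z).congr_deriv (by simp)
  have d2 := HasFDerivAt.comp_hasDerivAt_of_eq (0 : ℝ) (ev_diff H z).hasFDerivAt d1 (by simp)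
  have d3 : (ev H ∘ fun s : ℝ => z + s • e.symm w) = fun _ => ev H z := by
    ext s
    simpa [h2] using h1 (e z) s
  rw [d3] at d2
  exact d2.unique (hasDerivAt_const _ _)

theorem dep_of_dir {k : ℕ} (hk : Even (k + 1)) {Y w₁ w₂ : Fin (k + 2) → ℂ} (hY : IsPolygon Y)
    (hω : omegaForm w₁ w₂ ≠ 0) (F : Fin (k + 1) → (Fin (k + 2) → ℂ) → ℝ)
    (hF : ∀ l, AnalyticOnNhd ℝ (F l) {P | IsPolygon P})
    (htr : ∀ l P, IsPolygon P → ∀ c : ℂ, F l (fun i => P i + c) = F l P)
    (hpo : ∀ l l' P, IsPolygon P → ∀ v, (∀ w, omegaForm v w = fderiv ℝ (F l) P w) →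
      fderiv ℝ (F l') P v = 0)
    (hdir : ∀ P, Dir (cp F P) Y w₁ ∧ Dir (cp F P) Y w₂) (P : Fin (k + 2) → ℂ) (hP : IsPolygon P) :
    ¬ LinearIndependent ℝ fun l => fderiv ℝ (F l) P := by
  intro hind
  obtain ⟨v, hv⟩ := exists_dual_family hind
  let e : (Fin (2 * (k + 2)) → ℝ) ≃L[ℝ] (Fin (k + 2) → ℂ) :=
    ContinuousLinearEquiv.ofFinrankEq (by
      simp [Module.finrank_pi_fintype, Complex.finrank_real_complex, mul_comm])
  have hF' : ∀ l P, IsPolygon P → ContDiffAt ℝ ∞ (F l) P := fun l P hP => (hF l P hP).contDiffAt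
  let f : Fin (k + 1) → (Fin (2 * (k + 2)) → ℝ) → ℝ := fun l δ => F l (Y + e δ)
  have hfd : ∀ l δ, IsPolygon (Y + e δ) → ∀ w,
      fderiv ℝ (f l) δ w = fderiv ℝ (F l) (Y + e δ) (e w) := fun l δ h w => by
    have h1 := ((hF' l _ h).differentiableAt (by simp)).hasFDerivAt.comp δ
      (e.hasFDerivAt.const_add Y)
    have h2 : fderiv ℝ (f l) δ = _ := h1.fderiv
    rw [h2]; rfl
  have hnear : ∀ᶠ δ in 𝓝 (0 : Fin (2 * (k + 2)) → ℝ), IsPolygon (Y + e δ) := by
    have : Continuous fun δ => Y + e δ := by fun_prop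
    exact this.continuousAt.eventually (isOpen_polygon.mem_nhds (by simpa using hY))
  let B : (Fin (2 * (k + 2)) → ℝ) →ₗ[ℝ] (Fin (2 * (k + 2)) → ℝ) →L[ℝ] ℝ :=
    LinearMap.toContinuousLinearMap.toLinearMap ∘ₗ LinearMap.mk₂ ℝ
      (fun a b => omegaForm (e a) (e b))
      (fun a a' b => by
        simp only [omega_eq, map_add, ← Finset.sum_add_distrib]
        refine Finset.sum_congr rfl fun i _ => Finset.sum_congr rfl fun j _ => ?_
        simp only [ip, Pi.add_apply, Complex.add_re, Complex.add_im]; ring)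
      (fun s a b => by
        simp only [omega_eq, map_smul, smul_eq_mul, Finset.mul_sum]
        refine Finset.sum_congr rfl fun i _ => Finset.sum_congr rfl fun j _ => ?_
        simp only [ip, Pi.smul_apply, Complex.smul_re, Complex.smul_im, smul_eq_mul]; ring)
      (fun a b b' => by
        simp only [omega_eq, map_add, ← Finset.sum_add_distrib]
        refine Finset.sum_congr rfl fun i _ => Finset.sum_congr rfl fun j _ => ?_
        simp only [ip, Pi.add_apply, Complex.add_re, Complex.add_im]; ring)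
      (fun s a b => by
        simp only [omega_eq, map_smul, smul_eq_mul, Finset.mul_sum]
        refine Finset.sum_congr rfl fun i _ => Finset.sum_congr rfl fun j _ => ?_
        simp only [ip, Pi.smul_apply, Complex.smul_re, Complex.smul_im, smul_eq_mul]; ring)
  have hB : ∀ a b, B a b = omegaForm (e a) (e b) := fun _ _ => rfl
  have hcp : ∀ P, AnalyticAt ℝ (cp F P) Y := fun P =>
    (ev_analytic P _).comp (analyticAt_pi_iff.2 fun l => hF l Y hY)
  have hO := symp_flat (f := f) (by simp) B (fun a b => by rw [hB, hB, omega_anti])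
    (t := e.symm fun _ => 1) (fun h => by
      have := congrFun (congrArg e h) 0
      simp at this) (by
      ext1 w
      have h1 : (fun _ => 1 : Fin (k + 2) → ℂ) = mid fun _ => 1 := by
        ext i; simp only [mid]; norm_num
      rw [hB, e.apply_symm_apply, h1, omega_mid hk]
      simp only [ip, Complex.one_re, Complex.one_im, Complex.sub_re, one_mul, zero_mul, add_zero,
        Finset.sum_sub_distrib]
      rw [← Equiv.sum_comp (Equiv.subRight (1 : Fin (k + 2))) fun i => (e w i).re]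
      simp)
    (u₁ := e.symm w₁) (u₂ := e.symm w₂) (by rwa [hB, e.apply_symm_apply, e.apply_symm_apply])
    (fun l => ContDiffAt.comp (g := F l) 0 (by simpa using hF' l _ hY)
      (contDiffAt_const.add e.contDiff.contDiffAt))
    (hnear.mono fun δ hδ l => exists_of_ker B _ fun w hw => by
      rw [hfd l δ hδ]
      have h1 : e w = fun _ => e w 0 := funext (omega_ker hk fun a => by
        have := hw (e.symm a)
        rwa [hB, e.apply_symm_apply] at this)
      set P := Y + e δ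
      have d1 : HasDerivAt (fun s : ℝ => P + s • e w) (e w) 0 :=
        (((hasDerivAt_id (0 : ℝ)).smul_const (e w)).const_add P).congr_deriv (by simp)
      have d2 := HasFDerivAt.comp_hasDerivAt_of_eq (0 : ℝ)
        ((hF' l _ hδ).differentiableAt (by simp)).hasFDerivAt d1 (by simp)
      have d3 : (F l ∘ fun s : ℝ => P + s • e w) = fun _ => F l P := by
        ext s
        rw [← htr l P hδ (s • e w 0), h1]
        rfl
      rw [d3] at d2
      exact d2.unique (hasDerivAt_const _ _))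
    (hnear.mono fun δ hδ l l' u hu => by
      rw [hfd l' δ hδ]
      refine hpo l l' _ hδ _ fun w => ?_
      rw [← e.apply_symm_apply w, ← hB, hu, hfd l δ hδ])
    (fun P j G hG z => ⟨ld_dir (hcp P) e (hdir P).1 hG z, ld_dir (hcp P) e (hdir P).2 hG z⟩)
    (fun l => e.symm (v l))
  have h4 : ∀ N : ℕ, (fun P => (Matrix.of fun l l' => fderiv ℝ (F l) P (v l')).det) =O[𝓝 Y]
      fun P => ‖P - Y‖ ^ N := fun N => by
    have t1 : Tendsto (fun P => e.symm (P - Y)) (𝓝 Y) (𝓝 0) := by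
      have : Continuous fun P => e.symm (P - Y) := by fun_prop
      simpa using this.tendsto Y
    have h1 := IsBigO.comp_tendsto (hO N) t1
    have h2 : (fun P => ‖e.symm (P - Y)‖ ^ N) =O[𝓝 Y] fun P => ‖P - Y‖ ^ N :=
      ((e.symm.isBigO_comp (fun P => P - Y) (𝓝 Y)).norm_norm).pow N
    refine (h1.trans h2).congr' ?_ EventuallyEq.rfl
    filter_upwards [isOpen_polygon.mem_nhds hY] with P hP
    have e1 : Y + e (e.symm (P - Y)) = P := by simp
    simp only [Function.comp_apply]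
    congr 2
    ext l l'
    rw [hfd l _ (by rwa [e1]), e1, e.apply_symm_apply]
  have h5 : AnalyticOnNhd ℝ (fun P => (Matrix.of fun l l' => fderiv ℝ (F l) P (v l')).det)
      {P | IsPolygon P} := by
    simp only [Matrix.det_apply', Matrix.of_apply]
    intro Q hQ
    refine Finset.analyticAt_fun_sum _ fun p _ => analyticAt_const.mul
      (Finset.analyticAt_fun_prod _ fun i _ => ?_)
    exact ((ContinuousLinearMap.apply ℝ ℝ (v i)).analyticAt _).comp ((hF _).fderiv Q hQ)
  have h6 := h5.eqOn_zero_of_preconnected_of_eventuallyEq_zero preconn_polygon hY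
    (eventually_zero_of_flat (h5 Y hY) h4) hP
  have h7 : (Matrix.of fun l l' : Fin (k + 1) => fderiv ℝ (F l) P (v l')) = 1 := by
    ext l l'
    exact hv l l'
  have h8 : (Matrix.of fun l l' : Fin (k + 1) => fderiv ℝ (F l) P (v l')).det = 0 := h6
  rw [h7, Matrix.det_one] at h8
  exact one_ne_zero h8

theorem omega_ww {m : ℕ} (hm : Even m) : omegaForm (ww : Fin (m + 5) → ℂ) (mir m ww) ≠ 0 := by
  have h1 : (ww : Fin (m + 5) → ℂ) =
      mid fun i => ((if i = 2 then 4 else 0) + if i = 3 then 2 else 0 : ℝ) * Complex.I := by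
    have n23 : (2 : Fin (m + 5)) ≠ 3 := Fin.ne_of_val_ne (show 2 ≠ 3 by decide)
    have n12 : (1 : Fin (m + 5)) ≠ 2 := Fin.ne_of_val_ne (show 1 ≠ 2 by decide)
    have n24 : (2 : Fin (m + 5)) ≠ 4 := Fin.ne_of_val_ne (show 2 ≠ 4 by decide)
    ext i
    revert i
    refine cases4 ?_ ?_ ?_ ?_ fun i h0 h1 h2 h3 => ?_
    · simp [ww, mid, n02, n03, n12, n31.symm]
    · simp [ww, mid, a11, n12, n31.symm, n23]; ring
    · simp [ww, mid, a21, n23, n23.symm]; ring
    · simp [ww, mid, a31, n23.symm, n24.symm, n34.symm]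
    · have b2 : i + 1 ≠ 2 := fun h => h1 (add_right_cancel (h.trans a11.symm))
      have b3 : i + 1 ≠ 3 := fun h => h2 (add_right_cancel (h.trans a21.symm))
      simp [ww, mid, wv_out _ _ _ h1 h2, h2, h3, b2, b3]
  have h2 : ∀ (z : ℂ) (x : ℝ), ip (x * Complex.I) z = x * z.im := fun z x => by simp [ip]
  rw [h1, omega_mid (hm.add (by decide : Even 4)), ← h1]
  simp only [h2, add_mul, ite_mul, zero_mul, Finset.sum_add_distrib, Finset.sum_ite_eq',
    Finset.mem_univ, if_true, mir_apply, s21, s31]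
  have c1 : (1 + 1 - 3 : Fin (m + 5)) = -1 := by rw [← a21, ← a11]; abel
  have c2 : (-1 : Fin (m + 5)) ≠ 3 := fun h => n04 (by rw [← a31, ← h]; abel)
  rw [c1]
  simp [ww, a11, s21, wv_neg, c2, n03]

theorem map_dep (n : ℕ) [NeZero n] (odd : Odd n) (hn : 5 ≤ n) (t : ℝ) (ht : 0 < t)
    (F : Fin (n - 1) → (Fin n → ℂ) → ℝ) (hF : ∀ k, AnalyticOnNhd ℝ (F k) {P | IsPolygon P})
    (h1 : ∀ k P, IsPolygon P → ∀ c : ℂ, F k (fun i => P i + c) = F k P)
    (h2 : ∀ k P, IsPolygon P → (∀ i, 2 * t < ‖rMap t P i - rMap t P (i - 1)‖) →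
      (∀ i, 2 * t < ‖qMap t P i - qMap t P (i - 1)‖) → F k (qMap t P) = F k (rMap t P))
    (h3 : ∀ k l P, IsPolygon P → ∀ v, (∀ w, omegaForm v w = fderiv ℝ (F k) P w) →
      fderiv ℝ (F l) P v = 0) (P : Fin n → ℂ) (hP : IsPolygon P) :
    ¬ LinearIndependent ℝ fun k => fderiv ℝ (F k) P := by
  obtain ⟨m, rfl⟩ : ∃ m, n = m + 5 := ⟨n - 5, by omega⟩
  have hm : Even m := by
    obtain ⟨j, hj⟩ := odd
    exact ⟨j - 2, by omega⟩
  refine dep_of_dir (k := m + 3) (hm.add (by decide : Even 4)) (Y := pt m t 0 1)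
    (pt_polygon hm ht.ne' (by norm_num) (by norm_num) (by norm_num)) (omega_ww hm) F hF h1 h3
    (fun Q => ?_) P hP
  have a1 : AnalyticOnNhd ℝ (cp F Q) {P | IsPolygon P} := fun P hP =>
    (ev_analytic Q _).comp (analyticAt_pi_iff.2 fun l => hF l P hP)
  have a2 : Cont t (cp F Q) := cont_of_inv ht a1 fun P hP hs hs' => by
    simp only [cp, h2 _ P hP hs hs']
  have a3 : ∀ P, IsPolygon P → ∀ c : ℂ, cp F Q (fun i => P i + c) = cp F Q P := fun P hP c => by
    simp only [cp, h1 _ P hP c]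
  exact ⟨dir_loop hm ht.ne' a2 a1 a3 isOpen_polygon, dir_mir hm ht.ne' a2 a1 a3 isOpen_polygon⟩

end Pool.Agent.MP_62f0b1_an.Ft
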