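import Mathlib
import Pool.Agent.MP_62f0b1_an.ft.Main

/-!
For odd `n ≥ 5` the map `f_t` has no complete family of commuting integrals that are
real-analytic on the space of `n`-gons.
-/

set_option autoImplicit false

open Pool.Agent.MP_62f0b1_an

namespace Pool.Agent.Results.MP_62f0b1_an.MapAnalytic

theorem result (n : ℕ) [NeZero n] (odd : Odd n) (hn : 5 ≤ n) (t : ℝ) (ht : 0 < t)
    (F : Fin (n - 1) → (Fin n → ℂ) → ℝ)
    (analytic : ∀ k, AnalyticOnNhd ℝ (F k) {P | IsPolygon P})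
    (transl : ∀ k P, IsPolygon P → ∀ c : ℂ, F k (fun i => P i + c) = F k P)
    (invariant : ∀ k P, IsPolygon P → (∀ i, 2 * t < ‖rMap t P i - rMap t P (i - 1)‖) →
      (∀ i, 2 * t < ‖qMap t P i - qMap t P (i - 1)‖) → F k (qMap t P) = F k (rMap t P))
    (commute : ∀ k l P, IsPolygon P → ∀ v, (∀ w, omegaForm v w = fderiv ℝ (F k) P w) →
      fderiv ℝ (F l) P v = 0)
    (P : Fin n → ℂ) (hP : IsPolygon P) :
    ¬ LinearIndependent ℝ fun k => fderiv ℝ (F k) P :=
  Ft.map_dep n odd hn t ht F analytic transl invariant commute P hP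

end Pool.Agent.Results.MP_62f0b1_an.MapAnalytic
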