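import Pool.Agent.MP_62f0b1_an.ft.Main

/-!
Quotients of analytic functions along the branches of the correspondence `r_t P ↦ q_t P`.
-/

set_option autoImplicit false
set_option linter.unusedSectionVars false

open Filter Topology Asymptotics Complex

namespace Pool.Agent.MP_62f0b1_an.Ft

variable {n : ℕ} [NeZero n]

/-- `Q` and `R` correspond under a branch with signed side lengths. -/
def Br (t : ℝ) (Q R : Fin n → ℂ) : Prop :=
  ∃ (P u : Fin n → ℂ) (a b : Fin n → ℝ), (∀ i, ‖u i‖ = 1) ∧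
    (∀ i, P i - P (i - 1) = a i • u i) ∧ (∀ i, dt (u i) (u (i - 1)) ≠ 0) ∧ (∀ i, 0 < b i) ∧
    ∑ i, b i • u i = 0 ∧ (Q = fun i => P i + t • u i) ∧ R = fun i => P i - t • u (i + 1)

theorem br_zero {t : ℝ} (ht : 0 < t) {Ψ : (Fin n → ℂ) × (Fin n → ℂ) → ℝ}
    (hG : ∀ Q R, IsPolygon Q → IsPolygon R → AnalyticAt ℝ Ψ (Q, R))
    (hinv : ∀ P, IsPolygon P → (∀ i, 2 * t < ‖rMap t P i - rMap t P (i - 1)‖) →
      (∀ i, 2 * t < ‖qMap t P i - qMap t P (i - 1)‖) → Ψ (qMap t P, rMap t P) = 0)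
    {Q₀ R₀ : Fin n → ℂ} (h : Br t Q₀ R₀) : Ψ (Q₀, R₀) = 0 := by
  obtain ⟨P, u, a, b, hu, hP, hd, hb, hs, rfl, rfl⟩ := h
  obtain ⟨B, hB⟩ := exists_edges _ hs
  let Q : ℝ → Fin n → ℂ := fun s => (fun i => P i + t • u i) + s • B
  let R : ℝ → Fin n → ℂ := fun s => (fun i => P i - t • u (i + 1)) + s • B
  have eQ : ∀ s i, Q s i - Q s (i - 1) = (a i + s * b i + t) • u i - t • u (i - 1) := fun s i => by
    simp only [Q, Pi.add_apply, Pi.smul_apply]
    linear_combination (norm := module) hP i + s • hB i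
  have eR : ∀ s i, R s i - R s (i - 1) = (a i + s * b i + t) • u i - t • u (i + 1) := fun s i => by
    simp only [R, Pi.add_apply, Pi.smul_apply, sub_add_cancel]
    linear_combination (norm := module) hP i + s • hB i
  have pQ : ∀ s, IsPolygon (Q s) := fun s i => by
    rw [← sub_ne_zero, eQ]
    exact ne_of_dt ht.ne' (hd i)
  have pR : ∀ s, IsPolygon (R s) := fun s i => by
    rw [← sub_ne_zero, eR]
    refine ne_of_dt ht.ne' ?_
    have := hd (i + 1)
    rw [add_sub_cancel_right, dt_swap] at this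
    exact neg_ne_zero.1 this
  have an : ∀ c : Fin n → ℂ, ∀ s, AnalyticAt ℝ (fun s : ℝ => c + s • B) s := fun c s =>
    analyticAt_const.add (analyticAt_id.smul analyticAt_const)
  have hφ : AnalyticOnNhd ℝ (fun s => Ψ (Q s, R s)) Set.univ := fun s _ =>
    AnalyticAt.comp (g := Ψ) (f := fun s => (Q s, R s)) (hG _ _ (pQ s) (pR s))
      ((an _ s).prod (an _ s))
  have big : ∀ᶠ s in atTop, ∀ i, 2 * t < a i + s * b i := eventually_all.2 fun i =>
    (tendsto_atTop_add_const_left _ (a i) (tendsto_id.atTop_mul_const (hb i))).eventually_gt_atTop _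
  obtain ⟨s0, hs0⟩ := eventually_atTop.1 big
  have z : ∀ s, s0 ≤ s → Ψ (Q s, R s) = 0 := fun s hs => by
    have hp : ∀ i, 0 < a i + s * b i := fun i => by linarith [hs0 s hs i]
    have e1 : ∀ i, (P + s • B) i - (P + s • B) (i - 1) = (a i + s * b i) • u i := fun i => by
      simp only [Pi.add_apply, Pi.smul_apply]
      linear_combination (norm := module) hP i + s • hB i
    have e2 : ∀ i, (t / ‖(a i + s * b i) • u i‖) • (a i + s * b i) • u i = t • u i := fun i => by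
      rw [norm_smul, hu, mul_one, Real.norm_of_nonneg (hp i).le, smul_smul,
        div_mul_cancel₀ _ (hp i).ne']
    have q1 : qMap t (P + s • B) = Q s := by
      ext i
      simp only [qMap, e1, e2]
      simp only [Q, Pi.add_apply]
      ring
    have r1 : rMap t (P + s • B) = R s := by
      ext i
      have e3 := e1 (i + 1)
      rw [add_sub_cancel_right] at e3
      simp only [rMap]
      rw [← neg_sub ((P + s • B) (i + 1)), e3, norm_neg, smul_neg, e2]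
      simp only [R, Pi.add_apply]
      ring
    rw [← q1, ← r1]
    have nb : ∀ i j, 2 * t < ‖(a i + s * b i + t) • u i - t • u j‖ := fun i j => by
      have := norm_sub_norm_le ((a i + s * b i + t) • u i) (t • u j)
      rw [norm_smul, norm_smul, hu, hu, Real.norm_of_nonneg ht.le,
        Real.norm_of_nonneg (by linarith [hp i])] at this
      linarith [hs0 s hs i]
    refine hinv _ (fun i => ?_) (fun i => ?_) fun i => ?_
    · rw [← sub_ne_zero, e1]
      refine smul_ne_zero (hp i).ne' fun h => ?_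
      have := hu i
      rw [h, norm_zero] at this
      exact zero_ne_one this
    · rw [r1, eR]
      exact nb _ _
    · rw [q1, eQ]
      exact nb _ _
  have := hφ.eqOn_zero_of_preconnected_of_eventuallyEq_zero isPreconnected_univ
    (Set.mem_univ (s0 + 1)) (by
      filter_upwards [Ioi_mem_nhds (lt_add_one s0)] with s hs
      exact z s (le_of_lt hs)) (Set.mem_univ 0)
  simpa [Q, R] using this

variable {t : ℝ} {p ε : Fin n → ℝ} {j : Fin n}

theorem curves (h10 : (1 : Fin n) ≠ 0) (hε : ∀ i, ε i * ε i = 1)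
    (e0 : ε 0 = -1) (e1 : ε 1 = 1) (ej : ε j = 1) (hd : p 1 - p (1 - 1) ≠ 0)
    {ξ η σ : Fin n → ℝ} (hη : ∀ i, η i - η (i - 1) = (p i - p (i - 1)) * σ i) (hg : Gen j ξ σ) :
    ∃ γ δ : ℝ → Fin n → ℂ, (γ 0 = fun i => ((p i + t * ε i : ℝ) : ℂ)) ∧
      (δ 0 = fun i => ((p i - t * ε (i + 1) : ℝ) : ℂ)) ∧
      HasDerivAt γ (fun i => ξ i + (η i + t * ε i * σ i : ℝ) * I) 0 ∧
      HasDerivAt δ (fun i => ξ i + (η i - t * ε (i + 1) * σ (i + 1) : ℝ) * I) 0 ∧
      ∀ᶠ τ in 𝓝[>] (0 : ℝ), Br t (γ τ) (δ τ) := by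
  obtain ⟨g1, g2, g3, g4⟩ := hg
  let κ : Fin n → ℝ := fun i => if i = 1 then -∑ i, σ i * (ξ i - ξ (i - 1)) else 0
  obtain ⟨ζ, hζ⟩ := exists_edges (fun i => σ i * (ξ i - ξ (i - 1)) + κ i)
    (by simp [κ, Finset.sum_add_distrib])
  let D : ℝ → ℝ := fun τ => p 1 - p (1 - 1) + τ * (ξ 1 - ξ (1 - 1))
  have hD0 : D 0 ≠ 0 := by simpa [D] using hd
  have hD : ∀ᶠ τ in 𝓝 (0 : ℝ), D τ ≠ 0 :=
    (by fun_prop : Continuous D).continuousAt.eventually_ne hD0
  let m : Fin n → ℝ → ℝ := fun i τ => σ i + τ * κ i / D τ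
  have hm : ∀ i, DifferentiableAt ℝ (m i) 0 := fun i =>
    (differentiableAt_const _).add (DifferentiableAt.div (by fun_prop) (by fun_prop) hD0)
  have m0 : ∀ i, m i 0 = σ i := fun i => by simp [m]
  let P : ℝ → Fin n → ℂ := fun τ i => (p i + τ * ξ i : ℝ) + (τ * η i + τ ^ 2 * ζ i : ℝ) * I
  let u : ℝ → Fin n → ℂ := fun τ i => ε i • uu (τ * m i τ)
  have dP : ∀ i, HasDerivAt (fun τ => P τ i) (ξ i + η i * I) 0 := fun i => by
    have a1 : HasDerivAt (fun τ : ℝ => p i + τ * ξ i) (ξ i) 0 := by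
      simpa using ((hasDerivAt_id (0 : ℝ)).mul_const (ξ i)).const_add (p i)
    have a2 : HasDerivAt (fun τ : ℝ => τ * η i + τ ^ 2 * ζ i) (η i) 0 := by
      simpa using ((hasDerivAt_id (0 : ℝ)).mul_const (η i)).fun_add
        ((hasDerivAt_pow 2 (0 : ℝ)).mul_const (ζ i))
    exact a1.ofReal_comp.fun_add (a2.ofReal_comp.mul_const I)
  have du : ∀ i, HasDerivAt (fun τ => t • u τ i) (t • ε i • (σ i * I)) 0 := fun i => by
    rw [← m0]
    exact ((uu_deriv (hm i)).fun_const_smul (ε i)).fun_const_smul t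
  refine ⟨fun τ i => P τ i + t • u τ i, fun τ i => P τ i - t • u τ (i + 1),
    by ext i; simp [P, u, uu], by ext i; simp [P, u, uu],
    hasDerivAt_pi.2 fun i => ((dP i).fun_add (du i)).congr_deriv (by simp; ring),
    hasDerivAt_pi.2 fun i => ((dP i).fun_sub (du (i + 1))).congr_deriv (by simp; ring), ?_⟩
  have ne1 : ∀ i i', σ i ≠ σ i' → ∀ᶠ τ in 𝓝 (0 : ℝ), m i τ - m i' τ ≠ 0 := fun i i' h =>
    ((hm i).continuousAt.sub (hm i').continuousAt).eventually_ne (by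
      simpa [m0, sub_eq_zero] using h)
  have lt1 : ∀ i i', σ i < σ i' → ∀ᶠ τ in 𝓝 (0 : ℝ), m i τ < m i' τ := fun i i' h =>
    (hm i).continuousAt.eventually_lt (hm i').continuousAt (by simpa [m0] using h)
  have ne2 : ∀ᶠ τ in 𝓝[>] (0 : ℝ), ∀ i, m i τ - m (i - 1) τ ≠ 0 := eventually_all.2 fun i => by
    by_cases h : σ i = σ (i - 1)
    · have hi : i = 1 + 1 := by
        by_contra hi
        exact g1 i hi h
      subst hi
      rw [add_sub_cancel_right] at h ⊢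
      filter_upwards [nhdsWithin_le_nhds hD, self_mem_nhdsWithin] with τ h1 h2
      have h3 : τ ≠ 0 := ne_of_gt h2
      simp [m, κ, h, h10, h1, h3, g2]
    · exact nhdsWithin_le_nhds (ne1 _ _ h)
  filter_upwards [nhdsWithin_le_nhds hD, self_mem_nhdsWithin, ne2,
    nhdsWithin_le_nhds (lt1 _ _ g3), nhdsWithin_le_nhds (lt1 _ _ g4)] with τ h1 h2 h3 h4 h5
  have h2' : 0 < τ := h2
  have cp : ∀ s s', 0 < Real.cos (Real.arctan s) * Real.cos (Real.arctan s') := fun s s' =>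
    mul_pos (Real.cos_arctan_pos s) (Real.cos_arctan_pos s')
  have hε0 : ∀ i, ε i ≠ 0 := fun i h => by simpa [h] using hε i
  obtain ⟨b, hb, hs⟩ := pos_rel (u τ) 1 j 0
    (by simp only [u, uu_dt, e1, ej]; exact mul_pos (by nlinarith) (cp _ _))
    (by simp only [u, uu_dt, e0, ej]; exact mul_pos (by nlinarith) (cp _ _))
    (by simp only [u, uu_dt, e0, e1]; exact mul_pos (by nlinarith) (cp _ _))
  refine ⟨P τ, u τ, fun i => (p i - p (i - 1) + τ * (ξ i - ξ (i - 1))) * ε i /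
    Real.cos (Real.arctan (τ * m i τ)), b, fun i => ?_, fun i => ?_, fun i => ?_, hb, hs, rfl, rfl⟩
  · have := hε i
    simp only [u, norm_smul, uu_norm, mul_one, Real.norm_eq_abs]
    rw [← sq_eq_sq₀ (abs_nonneg _) zero_le_one, sq_abs]
    linarith
  · have c0 := (Real.cos_arctan_pos (τ * m i τ)).ne'
    have c1 : (p i - p (i - 1) + τ * (ξ i - ξ (i - 1))) * (τ * κ i / D τ) = τ * κ i := by
      by_cases hi : i = 1
      · subst hi
        exact mul_div_cancel₀ _ h1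
      · simp [κ, hi]
    apply Complex.ext
    · simp only [P, u, sub_re, add_re, ofReal_re, mul_re, I_re, I_im, ofReal_im, smul_re, uu_re,
        smul_eq_mul]
      field_simp
      linear_combination (-(p i - p (i - 1) + τ * (ξ i - ξ (i - 1)))) * hε i
    · simp only [P, u, sub_im, add_im, ofReal_re, mul_im, I_re, I_im, ofReal_im, smul_im, uu_im,
        smul_eq_mul]
      field_simp
      simp only [m]
      linear_combination τ * hη i + τ ^ 2 * hζ i - τ * c1 -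
        (p i - p (i - 1) + τ * (ξ i - ξ (i - 1))) * (τ * (σ i + τ * κ i / D τ)) * hε i
  · simp only [u, uu_dt]
    refine mul_ne_zero (mul_ne_zero (mul_ne_zero (hε0 _) (hε0 _)) ?_) (cp _ _).ne'
    rw [← mul_sub, ← neg_sub]
    exact mul_ne_zero h2'.ne' (neg_ne_zero.2 (h3 i))

theorem lim_eq {A B : ℝ → ℝ} {α β : ℝ} {i i' : ℕ} (hA : Tendsto A (𝓝[>] 0) (𝓝 α))
    (hB : Tendsto B (𝓝[>] 0) (𝓝 β)) (hα : α ≠ 0) (hβ : β ≠ 0)
    (h : ∀ᶠ τ in 𝓝[>] (0 : ℝ), A τ * τ ^ i = B τ * τ ^ i') : α = β := by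
  have key : ∀ {A B : ℝ → ℝ} {α β : ℝ} {i d : ℕ}, Tendsto A (𝓝[>] 0) (𝓝 α) →
      Tendsto B (𝓝[>] 0) (𝓝 β) → (∀ᶠ τ in 𝓝[>] (0 : ℝ), A τ * τ ^ i = B τ * τ ^ (i + d)) →
      α = β * 0 ^ d := fun {A B α β i d} hA hB h => by
    have t1 : Tendsto (fun τ : ℝ => τ ^ d) (𝓝[>] 0) (𝓝 (0 ^ d)) :=
      ((continuous_pow d).tendsto 0).mono_left nhdsWithin_le_nhds
    refine tendsto_nhds_unique hA ((hB.mul t1).congr' ?_)
    filter_upwards [h, self_mem_nhdsWithin] with τ h1 h2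
    refine mul_right_cancel₀ (pow_pos (show 0 < τ from h2) i).ne' ?_
    rw [h1]; ring
  rcases le_total i i' with hi | hi
  · obtain ⟨d, rfl⟩ := Nat.exists_eq_add_of_le hi
    have := key hA hB h
    cases d with
    | zero => simpa using this
    | succ d => exact absurd (by simpa using this) hα
  · obtain ⟨d, rfl⟩ := Nat.exists_eq_add_of_le hi
    have := key hB hA (h.mono fun τ h => h.symm)
    cases d with
    | zero => simpa using this.symm
    | succ d => exact absurd (by simpa using this) hβ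

/-- Invariance of `N / H ^ D` under all branches. -/
def ContQ (t : ℝ) (N H : (Fin n → ℂ) → ℝ) (D : ℕ) : Prop :=
  ∀ Q R, Br t Q R → H Q ≠ 0 → H R ≠ 0 → N Q * H R ^ D = N R * H Q ^ D

/-- The defect of the relation between leading forms. -/
def Df {E : Type*} (D : ℕ) (p h p' h' : E → ℝ) (v w : E) : ℝ :=
  (p v * h' w ^ D - p' w * h v ^ D) * (p v * h v * (p' w * h' w))

variable {N H : (Fin n → ℂ) → ℝ} {D a b a' b' : ℕ} {pq hq pr hr : (Fin n → ℂ) → ℝ}

theorem df_of_curves (hC : ContQ t N H D) {x y v w : Fin n → ℂ} (l1 : Lead N x a pq)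
    (l2 : Lead H x b hq) (l3 : Lead N y a' pr) (l4 : Lead H y b' hr)
    (h : ∃ γ δ : ℝ → Fin n → ℂ, γ 0 = x ∧ δ 0 = y ∧ HasDerivAt γ v 0 ∧ HasDerivAt δ w 0 ∧
      ∀ᶠ τ in 𝓝[>] (0 : ℝ), Br t (γ τ) (δ τ)) : Df D pq hq pr hr v w = 0 := by
  obtain ⟨γ, δ, h1, h2, h3, h4, h5⟩ := h
  by_contra h0
  obtain ⟨n1, n2⟩ := mul_ne_zero_iff.1 h0
  simp only [ne_eq, mul_eq_zero, not_or] at n2
  obtain ⟨⟨n2, n3⟩, n4, n5⟩ := n2
  have le : 𝓝[>] (0 : ℝ) ≤ 𝓝[≠] 0 := nhdsWithin_mono _ fun _ h => ne_of_gt h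
  have t1 := (l1.tendsto h1 h3).mono_left le
  have t2 := (l2.tendsto h1 h3).mono_left le
  have t3 := (l3.tendsto h2 h4).mono_left le
  have t4 := (l4.tendsto h2 h4).mono_left le
  refine n1 (sub_eq_zero.2 (lim_eq (i := a + b' * D) (i' := a' + b * D) (t1.mul (t4.pow D))
    (t3.mul (t2.pow D)) (mul_ne_zero n2 (pow_ne_zero _ n5)) (mul_ne_zero n4 (pow_ne_zero _ n3)) ?_))
  filter_upwards [h5, t2.eventually_ne n3, t4.eventually_ne n5, self_mem_nhdsWithin]
    with τ k1 k2 k3 k4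
  have k5 : τ ≠ 0 := ne_of_gt k4
  have := hC _ _ k1 (div_ne_zero_iff.1 k2).1 (div_ne_zero_iff.1 k3).1
  rw [pow_add, pow_add, pow_mul, pow_mul, div_pow, div_pow]
  field_simp
  linear_combination this

theorem stepQ (hC : ContQ t N H D) (h10 : (1 : Fin n) ≠ 0) (hε : ∀ i, ε i * ε i = 1)
    (e0 : ε 0 = -1) (e1 : ε 1 = 1) (ej : ε j = 1) (hd : p 1 - p (1 - 1) ≠ 0)
    (l1 : Lead N (fun i => (p i + t * ε i : ℝ)) a pq)
    (l2 : Lead H (fun i => (p i + t * ε i : ℝ)) b hq)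
    (l3 : Lead N (fun i => (p i - t * ε (i + 1) : ℝ)) a' pr)
    (l4 : Lead H (fun i => (p i - t * ε (i + 1) : ℝ)) b' hr)
    {ξ₀ η₀ σ₀ : Fin n → ℝ} (hη₀ : ∀ i, η₀ i - η₀ (i - 1) = (p i - p (i - 1)) * σ₀ i)
    (hg : Gen j ξ₀ σ₀)
    {ξ η σ : Fin n → ℝ} (hη : ∀ i, η i - η (i - 1) = (p i - p (i - 1)) * σ i) :
    Df D pq hq pr hr (fun i => ξ i + (η i + t * ε i * σ i : ℝ) * I)
      (fun i => ξ i + (η i - t * ε (i + 1) * σ (i + 1) : ℝ) * I) = 0 := by
  obtain ⟨g1, g2, g3, g4⟩ := hg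
  let L : (Fin n → ℝ) → (Fin n → ℝ) → ℝ → Fin n → ℝ := fun a b r i => a i + r * (b i - a i)
  have hgen : ∀ᶠ r in 𝓝 (0 : ℝ), Gen j (L ξ₀ ξ r) (L σ₀ σ r) := by
    have c : ∀ a b i, ContinuousAt (fun r => L a b r i) 0 := fun a b i => by fun_prop
    refine (eventually_all.2 fun i => eventually_all.2 fun hi => ?_).and
      (Eventually.and ?_ (Eventually.and ?_ ?_))
    · refine (((c σ₀ σ i).sub (c σ₀ σ (i - 1))).eventually_ne (y := 0) ?_).mono
        fun r hr => sub_ne_zero.1 hr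
      simpa [L, sub_eq_zero] using g1 i hi
    · exact ContinuousAt.eventually_ne (by fun_prop) (by simpa [L] using g2)
    · exact (c σ₀ σ 1).eventually_lt (c σ₀ σ 0) (by simpa [L] using g3)
    · exact (c σ₀ σ 0).eventually_lt (c σ₀ σ j) (by simpa [L] using g4)
  set v₀ : Fin n → ℂ := fun i => ξ₀ i + (η₀ i + t * ε i * σ₀ i : ℝ) * I with hv₀
  set w₀ : Fin n → ℂ := fun i => ξ₀ i + (η₀ i - t * ε (i + 1) * σ₀ (i + 1) : ℝ) * I with hw₀
  set v : Fin n → ℂ := fun i => ξ i + (η i + t * ε i * σ i : ℝ) * I with hv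
  set w : Fin n → ℂ := fun i => ξ i + (η i - t * ε (i + 1) * σ (i + 1) : ℝ) * I with hw
  obtain ⟨Q₁, hQ₁⟩ := l1.line v₀ (v - v₀)
  obtain ⟨Q₂, hQ₂⟩ := l2.line v₀ (v - v₀)
  obtain ⟨Q₃, hQ₃⟩ := l3.line w₀ (w - w₀)
  obtain ⟨Q₄, hQ₄⟩ := l4.line w₀ (w - w₀)
  have k : ∀ r : ℝ, Df D pq hq pr hr (v₀ + r • (v - v₀)) (w₀ + r • (w - w₀)) =
      ((Q₁ * Q₄ ^ D - Q₃ * Q₂ ^ D) * (Q₁ * Q₂ * (Q₃ * Q₄))).eval r := fun r => by
    simp [Df, hQ₁, hQ₂, hQ₃, hQ₄]
  have e : (Q₁ * Q₄ ^ D - Q₃ * Q₂ ^ D) * (Q₁ * Q₂ * (Q₃ * Q₄)) = 0 :=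
    Polynomial.eq_zero_of_infinite_isRoot _ (infinite_of_mem_nhds (0 : ℝ) (by
      filter_upwards [hgen] with r hr'
      have := df_of_curves hC l1 l2 l3 l4 (curves (t := t) h10 hε e0 e1 ej hd (η := L η₀ η r)
        (fun i => by
          simp only [L]
          linear_combination (1 - r) * hη₀ i + r * hη i) hr')
      rw [Polynomial.IsRoot, ← k]
      convert this using 2 <;> ext i <;> simp [L, hv₀, hv, hw₀, hw] <;> ring))
  have a1 := k 1
  rwa [one_smul, one_smul, add_sub_cancel, add_sub_cancel, e, Polynomial.eval_zero] at a1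

end Pool.Agent.MP_62f0b1_an.Ft
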