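import Pool.Agent.MP_62f0b1_an.ft.Mero1

/-!
The loop of four branches for quotients of analytic functions.
-/

set_option autoImplicit false
set_option linter.unusedSectionVars false

open Filter Topology Asymptotics Complex

namespace Pool.Agent.MP_62f0b1_an.Ft

section gen
variable {E : Type*} [NormedAddCommGroup E] [NormedSpace ℝ E] {f g : E → ℝ}

/-- Polynomial along every line. -/
def LP (f : E → ℝ) : Prop := ∀ v w, ∃ Q : Polynomial ℝ, ∀ τ : ℝ, f (v + τ • w) = Q.eval τ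

/-- Linear maps as functions. -/
def Lin (L : E → E) : Prop := ∀ v w (τ : ℝ), L (v + τ • w) = L v + τ • L w

theorem LP.mul (hf : LP f) (hg : LP g) : LP fun v => f v * g v := fun v w => by
  obtain ⟨P, hP⟩ := hf v w
  obtain ⟨Q, hQ⟩ := hg v w
  exact ⟨P * Q, fun τ => by simp [hP, hQ]⟩

theorem LP.sub (hf : LP f) (hg : LP g) : LP fun v => f v - g v := fun v w => by
  obtain ⟨P, hP⟩ := hf v w
  obtain ⟨Q, hQ⟩ := hg v w
  exact ⟨P - Q, fun τ => by simp [hP, hQ]⟩

theorem LP.pow (hf : LP f) (D : ℕ) : LP fun v => f v ^ D := fun v w => by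
  obtain ⟨P, hP⟩ := hf v w
  exact ⟨P ^ D, fun τ => by simp [hP]⟩

theorem LP.comp (hf : LP f) {L : E → E} (hL : Lin L) : LP fun v => f (L v) := fun v w => by
  simpa only [hL v w] using hf (L v) (L w)

theorem LP.shift (hf : LP f) (c : E) : LP fun v => f (v + c) := fun v w => by
  simpa only [add_right_comm v _ c] using hf (v + c) w

theorem LP.cancel (hf : LP f) (hg : LP g) (h0 : ∃ v, g v ≠ 0) (h : ∀ v, f v * g v = 0) (v : E) :
    f v = 0 := by
  obtain ⟨w, hw⟩ := h0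
  obtain ⟨P, hP⟩ := hf v (w - v)
  obtain ⟨Q, hQ⟩ := hg v (w - v)
  have h1 : P * Q = 0 := Polynomial.funext fun τ => by simp [← hP, ← hQ, h]
  have h2 : Q ≠ 0 := fun h2 => hw (by simpa [h2] using hQ 1)
  simpa [(mul_eq_zero.1 h1).resolve_right h2] using hP 0

theorem LP.ne_mul (hf : LP f) (hg : LP g) (h0 : ∃ v, f v ≠ 0) (h1 : ∃ v, g v ≠ 0) :
    ∃ v, f v * g v ≠ 0 := by
  by_contra h
  obtain ⟨v, hv⟩ := h0
  exact hv (hf.cancel hg h1 (fun v => not_not.1 fun hv => h ⟨v, hv⟩) v)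

theorem ne_comp {L : E → E} (hL : Function.Surjective L) (h : ∃ v, f v ≠ 0) :
    ∃ v, f (L v) ≠ 0 := by
  obtain ⟨v, hv⟩ := h
  obtain ⟨w, rfl⟩ := hL v
  exact ⟨w, hv⟩

/-- Non-zero leading forms of numerator and denominator. -/
def Dat (N H : E → ℝ) (x : E) (p h : E → ℝ) : Prop :=
  (∃ a, Lead N x a p) ∧ (∃ b, Lead H x b h) ∧ (∃ v, p v ≠ 0) ∧ ∃ v, h v ≠ 0

/-- The quotients of leading forms correspond under `L`. -/
def Eqv (D : ℕ) (p h p' h' : E → ℝ) (L : E → E) : Prop :=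
  ∀ v, p v * h' (L v) ^ D = p' (L v) * h v ^ D

variable {N H p h p' h' p'' h'' : E → ℝ} {x y : E} {D : ℕ} {L L' : E → E}

theorem Dat.lp (d : Dat N H x p h) : LP p := let ⟨_, h⟩ := d.1; h.line
theorem Dat.lh (d : Dat N H x p h) : LP h := let ⟨_, h⟩ := d.2.1; h.line

theorem eqv_of_df (d : Dat N H x p h) (d' : Dat N H y p' h') (hL : Lin L)
    (hs : Function.Surjective L) (hd : ∀ v, Df D p h p' h' v (L v) = 0) : Eqv D p h p' h' L :=
  fun v => sub_eq_zero.1 (((d.lp.mul ((d'.lh.comp hL).pow D)).sub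
    ((d'.lp.comp hL).mul (d.lh.pow D))).cancel
    ((d.lp.mul d.lh).mul ((d'.lp.comp hL).mul (d'.lh.comp hL)))
    ((d.lp.mul d.lh).ne_mul ((d'.lp.comp hL).mul (d'.lh.comp hL))
      (d.lp.ne_mul d.lh d.2.2.1 d.2.2.2)
      ((d'.lp.comp hL).ne_mul (d'.lh.comp hL) (ne_comp hs d'.2.2.1) (ne_comp hs d'.2.2.2))) hd v)

theorem Lin.comp (h : Lin L) (h' : Lin L') : Lin (L' ∘ L) := fun v w τ => by
  simp only [Function.comp, h v w, h' (L v)]

theorem Eqv.trans {z : E} (e : Eqv D p h p' h' L) (e' : Eqv D p' h' p'' h'' L')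
    (d : Dat N H x p h) (d' : Dat N H y p' h') (d'' : Dat N H z p'' h'') (hL : Lin L)
    (hL' : Lin L') (hs : Function.Surjective L) : Eqv D p h p'' h'' (L' ∘ L) := fun v => by
  obtain ⟨w, hw⟩ := ne_comp hs d'.2.2.2
  refine sub_eq_zero.1 (((d.lp.mul ((d''.lh.comp (hL.comp hL')).pow D)).sub
    ((d''.lp.comp (hL.comp hL')).mul (d.lh.pow D))).cancel ((d'.lh.comp hL).pow D)
    ⟨w, pow_ne_zero _ hw⟩ (fun v => ?_) v)
  simp only [Function.comp]
  linear_combination h'' (L' (L v)) ^ D * e v + h v ^ D * e' (L v)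

theorem eqv_unipotent (d : Dat N H x p h) {w : E} (l : E →ₗ[ℝ] ℝ) (hw : l w = 0) {e : E}
    (he : l e ≠ 0) (h1 : Eqv D p h p h fun v => v + l v • w) (v : E) (τ : ℝ) :
    p (v + τ • w) * h v ^ D = p v * h (v + τ • w) ^ D := by
  have lin : ∀ c : ℝ, Lin fun v => v + (c * l v) • w := fun c v v' s => by
    simp only [map_add, map_smul, smul_eq_mul]
    module
  have h2 : ∀ j : ℕ, Eqv D p h p h fun v => v + ((j : ℝ) * l v) • w := by
    intro j
    induction j with
    | zero => intro v; simp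
    | succ j ih =>
      have := ih.trans h1 d d d (lin j) (by simpa using lin 1)
        fun v => ⟨v - ((j : ℝ) * l v) • w, by simp [hw]⟩
      convert this using 1
      ext v
      simp only [Function.comp, map_add, map_smul, hw, smul_zero, add_zero]
      push_cast
      module
  have ll : LP l := fun v w => ⟨Polynomial.C (l v) + Polynomial.X * Polynomial.C (l w),
    fun τ => by simp; exact mul_comm _ _⟩
  refine sub_eq_zero.1 ((((d.lp.shift _).mul (d.lh.pow D)).sub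
    (d.lp.mul ((d.lh.shift _).pow D))).cancel ll ⟨e, he⟩ (fun v => ?_) v)
  by_cases hv : l v = 0
  · rw [hv, mul_zero]
  obtain ⟨P, hP⟩ := d.lp v w
  obtain ⟨Q, hQ⟩ := d.lh v w
  have h3 : P * Polynomial.C (h v ^ D) - Polynomial.C (p v) * Q ^ D = 0 := by
    apply Polynomial.eq_zero_of_infinite_isRoot
    refine Set.infinite_of_injective_forall_mem (f := fun j : ℕ => (j : ℝ) * l v) ?_ ?_
    · intro a b hab
      exact_mod_cast mul_right_cancel₀ hv hab
    · intro j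
      have := h2 j v
      simp only [hP, hQ] at this
      simp [Polynomial.IsRoot, this]
  have h4 := congrArg (Polynomial.eval τ) h3
  simp only [Polynomial.eval_sub, Polynomial.eval_mul, Polynomial.eval_C, Polynomial.eval_pow,
    ← hP, ← hQ, Polynomial.eval_zero] at h4
  rw [h4, zero_mul]

theorem exists_lead_ne {G : E → ℝ} {U : Set E} (hU : IsPreconnected U) (hG : AnalyticOnNhd ℝ G U)
    (h0 : ∃ P ∈ U, G P ≠ 0) (hx : x ∈ U) : ∃ k p, Lead G x k p ∧ ∃ v, p v ≠ 0 := by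
  by_contra hn
  obtain ⟨P, hP, h0⟩ := h0
  have h1 : ∀ k, Ord G x k := fun k => by
    induction k with
    | zero => exact ord_zero (hG x hx)
    | succ k ih =>
      obtain ⟨p, hp⟩ := exists_lead (hG x hx) ih
      exact hp.ord_succ fun v => by
        by_contra hv
        exact hn ⟨k, p, hp, v, hv⟩
  have t1 : Tendsto (fun y => y - x) (𝓝 x) (𝓝 0) := by
    have : Continuous fun y => y - x := by fun_prop
    simpa using this.tendsto x
  refine h0 (hG.eqOn_zero_of_preconnected_of_eventuallyEq_zero hU hx ?_ hP)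
  filter_upwards [t1.eventually (eventually_zero_of_ord (hG x hx) h1)] with y hy
  simpa using hy

theorem ne_of_lead {G : E → ℝ} {U : Set E} (hU : U ∈ 𝓝 x) {k : ℕ} (hp : Lead G x k p)
    (h0 : ∃ v, p v ≠ 0) : ∃ P ∈ U, G P ≠ 0 := by
  obtain ⟨v, hv⟩ := h0
  have d : HasDerivAt (fun τ : ℝ => x + τ • v) v 0 :=
    (((hasDerivAt_id (0 : ℝ)).smul_const v).const_add x).congr_deriv (by simp)
  obtain ⟨τ, h1, h2⟩ := (((hp.tendsto (by simp) d).eventually_ne hv).and (nhdsWithin_le_nhds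
    (d.continuousAt.eventually (p := (· ∈ U)) (by simpa using hU)))).exists
  exact ⟨_, h2, (div_ne_zero_iff.1 h1).1⟩

end gen

variable {m : ℕ} {t : ℝ} {N H : (Fin (m + 5) → ℂ) → ℝ} {D : ℕ}

theorem stepQ' (hm : Even m) (ht : t ≠ 0) (hC : ContQ t N H D) {a b e : ℝ} (ha : a ≠ 0)
    (hb : b - a ≠ 0) (he : e * e = 1) {pq hq pr hr : (Fin (m + 5) → ℂ) → ℝ}
    (dq : Dat N H (pt m t (a + 1) (b + e)) pq hq) (dr : Dat N H (pt m t (a - e) (b + 1)) pr hr)
    (ξ v w : Fin (m + 5) → ℝ) (h x y : ℝ)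
    (hA : ∀ i, v (i + 1) + w i = wv (fun _ => h) x y (i + 1) + wv (fun _ => h) x y i)
    (h1 : x - h = a * (v 1 - x)) (h2 : y - x = (b - a) * e * (v 2 - y)) (h3 : h - y = b * (v 3 - h)) :
    Df D pq hq pr hr (fun i => ξ i + v i * I) (fun i => ξ i + w i * I) = 0 := by
  obtain ⟨⟨k1, l1⟩, ⟨k2, l2⟩, -, -⟩ := dq
  obtain ⟨⟨k3, l3⟩, ⟨k4, l4⟩, -, -⟩ := dr
  have hε : ∀ i, wv sg 1 e i * wv (m := m) sg 1 e i = 1 := fun i => by
    unfold wv
    split_ifs
    · norm_num
    · exact he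
    · exact sg_sq i
  let c : Fin (m + 5) → ℝ := fun i => if i = 0 ∨ i = 3 then 0 else sg i
  have c0 : c 0 = 0 := by simp [c]
  have c3 : c 3 = 0 := by simp [c]
  have c4 : c 4 = 1 := by simp [c, n04.symm, n34.symm]
  have eq : pt m t (a + 1) (b + e) =
      fun i => ((wv (fun _ => 0) (t * a) (t * b) i + t * wv sg 1 e i : ℝ) : ℂ) := by
    ext i
    revert i
    refine cases4 (by simp [pt]) (by simp [pt, mul_add]) (by simp [pt, mul_add]) (by simp [pt])
      fun i _ h1 h2 _ => by simp [pt, wv_out _ _ _ h1 h2]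
  have er : pt m t (a - e) (b + 1) =
      fun i => ((wv (fun _ => 0) (t * a) (t * b) i - t * wv sg 1 e (i + 1) : ℝ) : ℂ) := by
    ext i
    revert i
    refine cases4 (by simp [pt]) (by simp [pt, a11, mul_sub]) (by simp [pt, a21, mul_add])
      (by simp [pt, a31]) fun i h0 h1 h2 _ => by
        simp [pt, wv_out _ _ _ h1 h2, wv_succ _ _ _ h0 h1, sg_succ hm h0]
  rw [eq] at l1 l2
  rw [er] at l3 l4
  have := stepQ (p := wv (fun _ => 0) (t * a) (t * b)) (ε := wv sg 1 e) (j := 4)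
    hC one_ne_zero hε rfl rfl sg4 (by simp [ht, ha]) l1 l2 l3 l4
    (ξ₀ := fun i => if i = 0 then 1 else 0) (η₀ := wv (fun _ => 0) (-(t * a * (b - a) ^ 2)) 0)
    (σ₀ := wv c (-(b - a) ^ 2) (a * (b - a)))
    (cases4 (by simp [wv_neg]) (by simp) (by simp [s21]; ring)
      (by simp [s31, c3]) fun i _ h1 h2 h3 => by simp [wv_out _ _ _ h1 h2, wv_pred _ _ _ h2 h3])
    ⟨cases4 (fun _ => ?_) (fun _ => by simp [c0, hb]) (fun h => absurd a11.symm h)
      (fun _ => by simp [s31, c3, ha, hb]) fun i h0 h1 h2 h3 _ => ?_, ?_,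
      by simp [c0, hb, sq_pos_iff], by simp [c0, c4]⟩
    (ξ := ξ) (η := wv (fun _ => h) x y)
    (σ := fun i => wv sg 1 e i * (v i - wv (fun _ => h) x y i) / t)
    (cases4 (by simp [wv_neg]) (by simp; field_simp; linarith)
      (by simp [s21]; field_simp; linarith) (by simp [s31]; field_simp; linarith)
      fun i _ h1 h2 h3 => by simp [wv_out _ _ _ h1 h2, wv_pred _ _ _ h2 h3])
  · convert this using 2 <;> ext i <;> congr 3 <;> field_simp
    · linear_combination (wv (fun _ => h) x y i - v i) * hε i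
    · linear_combination hA i - (wv (fun _ => h) x y (i + 1) - v (i + 1)) * hε (i + 1)
  · rw [wv_pred _ _ _ n02 n03, wv0, c0]
    have h1 : ¬ ((0 : Fin (m + 5)) - 1 = 0 ∨ (0 : Fin (m + 5)) - 1 = 3) := by
      simp only [sub_eq_iff_eq_add, a31]
      simp [n04]
    simp only [c, h1, if_false, sg_pred hm zero_ne_one]
    simp
  · rw [wv_pred _ _ _ h2 h3, wv_out _ _ _ h1 h2]
    have h4 : sg i ≠ 0 := fun h => by simpa [h] using sg_sq i
    simp only [c, h0, h3, or_self, if_false, sg_pred hm h1]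
    split_ifs
    · exact h4
    · intro h5
      exact h4 (by linarith)
  · simp only [mul_sub, Finset.sum_sub_distrib, sub_eq_zero]
    simp [c0, hb]

theorem wv_lin (h x y h' x' y' τ : ℝ) (i : Fin (m + 5)) :
    wv (fun _ => h + τ * h') (x + τ * x') (y + τ * y') i =
      wv (fun _ => h) x y i + τ * wv (fun _ => h') x' y' i := by
  unfold wv
  split_ifs <;> rfl

/-- Linear functionals as functions. -/
def LinF (h : (Fin (m + 5) → ℝ) → ℝ) : Prop :=
  ∀ (v w : Fin (m + 5) → ℝ) (τ : ℝ), h (fun i => v i + τ * w i) = h v + τ * h w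

theorem lf_surj {T : (Fin (m + 5) → ℝ) → Fin (m + 5) → ℝ} (h : Function.Surjective T) :
    Function.Surjective (lf T) := fun z => by
  obtain ⟨w, hw⟩ := h fun i => (z i).im
  refine ⟨fun i => (z i).re + w i * I, ?_⟩
  ext i
  simp [lf, hw]

variable {a b e : ℝ} {h x y : (Fin (m + 5) → ℝ) → ℝ} {p q p' q' : (Fin (m + 5) → ℂ) → ℝ}

theorem lin_rq (lh : LinF h) (lx : LinF x) (ly : LinF y) :
    Lin (lf fun w => rq (h w) (x w) (y w) w) := fun v w τ => by
  ext i
  apply Complex.ext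
  · simp [lf]
  · simp [lf, rq, lh (fun i => (v i).im), lx (fun i => (v i).im), ly (fun i => (v i).im), wv_lin]
    ring

theorem lin_qr (lh : LinF h) (lx : LinF x) (ly : LinF y) :
    Lin (lf fun w => qr (h w) (x w) (y w) w) := fun v w τ => by
  ext i
  apply Complex.ext
  · simp [lf]
  · simp [lf, qr, lh (fun i => (v i).im), lx (fun i => (v i).im), ly (fun i => (v i).im), wv_lin]
    ring

theorem eqv_rq (hm : Even m) (ht : t ≠ 0) (hC : ContQ t N H D) (ha : a ≠ 0)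
    (hb : b - a ≠ 0) (he : e * e = 1) (hl : Lin (lf fun w => rq (h w) (x w) (y w) w))
    (hs : Function.Surjective (lf fun w => rq (h w) (x w) (y w) w))
    (h1 : ∀ w, x w - h w = a * (h w - w 0)) (h2 : ∀ w, y w - x w = (b - a) * e * (x w - w 1))
    (h3 : ∀ w, h w - y w = b * (y w - w 2)) {X Y X' Y' : ℝ} (d : Dat N H (pt m t X Y) p q)
    (d' : Dat N H (pt m t X' Y') p' q') (hX : X = a - e ∧ Y = b + 1 ∧ X' = a + 1 ∧ Y' = b + e) :
    Eqv D p q p' q' (lf fun w => rq (h w) (x w) (y w) w) := eqv_of_df d d' hl hs fun z => by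
  obtain ⟨rfl, rfl, rfl, rfl⟩ := hX
  set w : Fin (m + 5) → ℝ := fun i => (z i).im with hw
  have := stepQ' hm ht hC ha hb he d' d (fun i => (z i).re) (rq (h w) (x w) (y w) w) w
    (h w) (x w) (y w) (fun i => by simp [rq])
    (by simp only [rq, s11, wv0, wv1]; linear_combination h1 w)
    (by simp only [rq, s21, wv1, wv2]; linear_combination h2 w)
    (by simp only [rq, s31, wv2, wv3]; linear_combination h3 w)
  simp only [hw, re_add_im] at this
  unfold Df at this ⊢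
  unfold lf
  linear_combination -this

theorem eqv_qr (hm : Even m) (ht : t ≠ 0) (hC : ContQ t N H D) (ha : a ≠ 0)
    (hb : b - a ≠ 0) (he : e * e = 1) (hl : Lin (lf fun w => qr (h w) (x w) (y w) w))
    (hs : Function.Surjective (lf fun w => qr (h w) (x w) (y w) w))
    (h1 : ∀ v, x v - h v = a * (v 1 - x v)) (h2 : ∀ v, y v - x v = (b - a) * e * (v 2 - y v))
    (h3 : ∀ v, h v - y v = b * (v 3 - h v)) {X Y X' Y' : ℝ} (d : Dat N H (pt m t X Y) p q)
    (d' : Dat N H (pt m t X' Y') p' q') (hX : X = a + 1 ∧ Y = b + e ∧ X' = a - e ∧ Y' = b + 1) :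
    Eqv D p q p' q' (lf fun v => qr (h v) (x v) (y v) v) := eqv_of_df d d' hl hs fun z => by
  obtain ⟨rfl, rfl, rfl, rfl⟩ := hX
  set v : Fin (m + 5) → ℝ := fun i => (z i).im with hv
  have := stepQ' hm ht hC ha hb he d d' (fun i => (z i).re) v (qr (h v) (x v) (y v) v)
    (h v) (x v) (y v) (fun i => by simp [qr]) (h1 v) (h2 v) (h3 v)
  simp only [hv, re_add_im] at this
  exact this

theorem rq_qr (h x y : ℝ) (v : Fin (m + 5) → ℝ) : rq h x y (qr h x y v) = v := by
  ext i; simp [rq, qr]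

theorem qr_rq (h x y : ℝ) (v : Fin (m + 5) → ℝ) : qr h x y (rq h x y v) = v := by
  ext i; simp [rq, qr]

theorem surj_rq (k : ∀ v, ∃ a b c, h (qr a b c v) = a ∧ x (qr a b c v) = b ∧ y (qr a b c v) = c) :
    Function.Surjective (lf fun w => rq (h w) (x w) (y w) w) := lf_surj fun v => by
  obtain ⟨a, b, c, k1, k2, k3⟩ := k v
  exact ⟨qr a b c v, by simp only [k1, k2, k3, rq_qr]⟩

theorem surj_qr (k : ∀ v, ∃ a b c, h (rq a b c v) = a ∧ x (rq a b c v) = b ∧ y (rq a b c v) = c) :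
    Function.Surjective (lf fun w => qr (h w) (x w) (y w) w) := lf_surj fun v => by
  obtain ⟨a, b, c, k1, k2, k3⟩ := k v
  exact ⟨rq a b c v, by simp only [k1, k2, k3, qr_rq]⟩

/-- Quotients of leading forms at `x` are invariant in direction `w`. -/
def DirQ {E : Type*} [NormedAddCommGroup E] [NormedSpace ℝ E] (N H : E → ℝ) (D : ℕ) (x w : E) :
    Prop :=
  ∀ p h, Dat N H x p h → ∀ (v : E) (τ : ℝ), p (v + τ • w) * h v ^ D = p v * h (v + τ • w) ^ D

theorem dirQ_loop (hm : Even m) (ht : t ≠ 0) (hC : ContQ t N H D)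
    (hN : AnalyticOnNhd ℝ N {P | IsPolygon P}) (hH : AnalyticOnNhd ℝ H {P | IsPolygon P})
    (tN : ∀ P, IsPolygon P → ∀ c : ℂ, N (fun i => P i + c) = N P)
    (tH : ∀ P, IsPolygon P → ∀ c : ℂ, H (fun i => P i + c) = H P) : DirQ N H D (pt m t 0 1) ww := by
  intro p₀ q₀ d₀
  have hY := pt_polygon (x := 0) (y := 1) hm ht (by norm_num) (by norm_num) (by norm_num)
  have dat : ∀ x y : ℝ, x ≠ -1 → y ≠ x → -1 ≠ y → ∃ p q, Dat N H (pt m t x y) p q :=
    fun x y h1 h2 h3 => by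
      obtain ⟨⟨a, la⟩, ⟨b, lb⟩, na, nb⟩ := d₀
      obtain ⟨a', p, lp, np⟩ := exists_lead_ne Xi.preconn_polygon hN
        (ne_of_lead (Xi.isOpen_polygon.mem_nhds hY) la na) (pt_polygon hm ht h1 h2 h3)
      obtain ⟨b', q, lq, nq⟩ := exists_lead_ne Xi.preconn_polygon hH
        (ne_of_lead (Xi.isOpen_polygon.mem_nhds hY) lb nb) (pt_polygon hm ht h1 h2 h3)
      exact ⟨p, q, ⟨a', lp⟩, ⟨b', lq⟩, np, nq⟩
  obtain ⟨p₁, q₁, d₁⟩ := dat 2 1 (by norm_num) (by norm_num) (by norm_num)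
  obtain ⟨p₂, q₂, d₂⟩ := dat 2 3 (by norm_num) (by norm_num) (by norm_num)
  obtain ⟨p₃, q₃, d₃⟩ := dat 0 3 (by norm_num) (by norm_num) (by norm_num)
  have l1 := lin_rq (m := m) (h := fun w => w 1) (x := fun w => 2 * w 1 - w 0) (y := fun w => w 1)
    (fun _ _ _ => by ring) (fun _ _ _ => by ring) (fun _ _ _ => by ring)
  have l2 := lin_qr (m := m) (h := fun v => 2 * v 2 - v 1) (x := fun v => v 2)
    (y := fun v => 6 * v 2 - 3 * v 1 - 2 * v 3)
    (fun _ _ _ => by ring) (fun _ _ _ => by ring) (fun _ _ _ => by ring)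
  have l3 := lin_qr (m := m) (h := fun v => (v 1 + 2 * v 2 + 8 * v 3) / 11)
    (x := fun v => (6 * v 1 + v 2 + 4 * v 3) / 11) (y := fun v => (3 * v 1 + 6 * v 2 + 2 * v 3) / 11)
    (fun _ _ _ => by ring) (fun _ _ _ => by ring) (fun _ _ _ => by ring)
  have l4 := lin_rq (m := m) (h := fun w => 9 * w 1 - 6 * w 0 - 2 * w 2) (x := fun w => w 0)
    (y := fun w => 3 * w 1 - 2 * w 0)
    (fun _ _ _ => by ring) (fun _ _ _ => by ring) (fun _ _ _ => by ring)
  have s1 := surj_rq (m := m) (h := fun w => w 1) (x := fun w => 2 * w 1 - w 0) (y := fun w => w 1)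
    fun v => ⟨2 * v 2 - v 1, v 2, 2 * v 2 - v 1, by simp [qr, a11], by simp [qr, a11]; ring,
      by simp [qr, a11]⟩
  have s2 := surj_qr (m := m) (h := fun v => 2 * v 2 - v 1) (x := fun v => v 2)
    (y := fun v => 6 * v 2 - 3 * v 1 - 2 * v 3)
    fun w => ⟨3 * w 1 - 2 * w 2 - 0 * w 0, 6 * w 1 - 4 * w 2 - w 0, w 1, by simp [rq, s21]; ring,
      by simp [rq, s21], by simp [rq, s21, s31]; ring⟩
  have s3 := surj_qr (m := m) (h := fun v => (v 1 + 2 * v 2 + 8 * v 3) / 11)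
    (x := fun v => (6 * v 1 + v 2 + 4 * v 3) / 11) (y := fun v => (3 * v 1 + 6 * v 2 + 2 * v 3) / 11)
    fun w => ⟨(6 * w 0 + 3 * w 1 + 2 * w 2) / 11, (w 0 + 6 * w 1 + 4 * w 2) / 11,
      (2 * w 0 + w 1 + 8 * w 2) / 11, by simp [rq, s21, s31]; ring, by simp [rq, s21, s31]; ring,
      by simp [rq, s21, s31]; ring⟩
  have s4 := surj_rq (m := m) (h := fun w => 9 * w 1 - 6 * w 0 - 2 * w 2) (x := fun w => w 0)
    (y := fun w => 3 * w 1 - 2 * w 0)
    fun v => ⟨v 1, 3 * v 2 - 6 * v 1 + 4 * v 3, 3 * v 1 - 2 * v 3, by simp [qr, a11, a21]; ring,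
      by simp [qr], by simp [qr, a11]; ring⟩
  have f1 := eqv_rq hm ht hC (a := 1) (b := 0) (e := 1) (by norm_num) (by norm_num) (by norm_num)
    l1 s1 (fun w => by ring) (fun w => by ring) (fun w => by ring) d₀ d₁ (by norm_num)
  have f2 := eqv_qr hm ht hC (a := 1) (b := 2) (e := -1) (by norm_num) (by norm_num) (by norm_num)
    l2 s2 (fun w => by ring) (fun w => by ring) (fun w => by ring) d₁ d₂ (by norm_num)
  have f3 := eqv_qr hm ht hC (a := 1) (b := 2) (e := 1) (by norm_num) (by norm_num) (by norm_num)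
    l3 s3 (fun w => by ring) (fun w => by ring) (fun w => by ring) d₂ d₃ (by norm_num)
  have f4 := eqv_rq hm ht hC (a := -1) (b := 2) (e := -1) (by norm_num) (by norm_num) (by norm_num)
    l4 s4 (fun w => by ring) (fun w => by ring) (fun w => by ring) d₃ d₀ (by norm_num)
  have g := ((f1.trans f2 d₀ d₁ d₂ l1 l2 s1).trans f3 d₀ d₂ d₃ (l1.comp l2) l3 (s2.comp s1)).trans
    f4 d₀ d₃ d₀ ((l1.comp l2).comp l3) l4 (s3.comp (s2.comp s1))
  let l : (Fin (m + 5) → ℂ) →ₗ[ℝ] ℝ :=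
    { toFun := fun z => 16 / 11 * (-2 * (z 1).im + (z 2).im + (z 3).im)
      map_add' := fun a b => by simp; ring
      map_smul' := fun s a => by simp; ring }
  refine eqv_unipotent d₀ l (e := fun i => (wv (fun _ => 0) 1 0 i : ℝ) * I)
    (by simp [l, ww]; norm_num) (by simp [l]) fun z => ?_
  obtain ⟨⟨a, la⟩, ⟨b, lb⟩, -, -⟩ := d₀
  have g1 := g z
  rw [lead_shift hY tN Xi.isOpen_polygon (fun _ => (3 * l z : ℝ) * I) a _ _ la la (Function.comp _ _ z),
    lead_shift hY tH Xi.isOpen_polygon (fun _ => (3 * l z : ℝ) * I) b _ _ lb lb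
      (Function.comp _ _ z)] at g1
  convert g1 using 4 <;> ext i <;> apply Complex.ext
  all_goals first
    | (simp [lf, ww]; done)
    | (revert i
       refine cases4 ?_ ?_ ?_ ?_ fun i h0 h1 h2 h3 => ?_
       · simp [lf, ww, l, rq, qr, wv_neg, s21, s31, s41, a11, a21, a31, n03]
         ring
       · simp [lf, ww, l, rq, qr, s21, s31, s41, a11, a21, a31]
         ring
       · simp [lf, ww, l, rq, qr, s21, s31, s41, a11, a21, a31]
         ring
       · simp [lf, ww, l, rq, qr, s21, s31, s41, a11, a21, a31]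
         ring
       · simp [lf, ww, l, rq, qr, s21, s31, s41, a11, a21, a31, wv_out _ _ _ h1 h2,
           wv_succ _ _ _ h0 h1, wv_pred _ _ _ h2 h3, h3]
         ring)

theorem mir_br {Q R : Fin (m + 5) → ℂ} (h : Br t Q R) : Br t (mir m R) (mir m Q) := by
  obtain ⟨P, u, a, b, hu, hP, hd, hb, hs, rfl, rfl⟩ := h
  have e1 : ∀ i : Fin (m + 5), 1 + 1 + 1 - i - 1 = 1 + 1 - i := fun i => by abel
  refine ⟨mir m P, fun i => u (1 + 1 + 1 - i), fun i => a (1 + 1 + 1 - i),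
    fun i => b (1 + 1 + 1 - i), fun i => hu _, fun i => ?_, fun i => ?_, fun i => hb _, ?_, ?_, ?_⟩
  · rw [← hP, e1, mir_apply, mir_apply, show 1 + 1 - (i - 1) = 1 + 1 + 1 - i by abel]
    ring
  · have := hd (1 + 1 + 1 - (i - 1))
    rw [show 1 + 1 + 1 - (i - 1) - 1 = 1 + 1 + 1 - i by abel, dt_swap] at this
    exact neg_ne_zero.1 this
  · have := Equiv.sum_comp (Equiv.subLeft (1 + 1 + 1 : Fin (m + 5))) fun i => b i • u i
    simp only [Equiv.subLeft_apply] at this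
    rw [this, hs]
  · ext i
    rw [mir_apply, mir_apply, show 1 + 1 - i + 1 = 1 + 1 + 1 - i by abel]
    ring
  · ext i
    dsimp only
    rw [show 1 + 1 + 1 - (i + 1) = 1 + 1 - i by abel, mir_apply, mir_apply]
    ring

theorem dirQ_mir (hm : Even m) (ht : t ≠ 0) (hC : ContQ t N H D)
    (hN : AnalyticOnNhd ℝ N {P | IsPolygon P}) (hH : AnalyticOnNhd ℝ H {P | IsPolygon P})
    (tN : ∀ P, IsPolygon P → ∀ c : ℂ, N (fun i => P i + c) = N P)
    (tH : ∀ P, IsPolygon P → ∀ c : ℂ, H (fun i => P i + c) = H P) :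
    DirQ N H D (pt m t 0 1) (mir m ww) := by
  have tr : ∀ G : (Fin (m + 5) → ℂ) → ℝ, (∀ P, IsPolygon P → ∀ c : ℂ, G (fun i => P i + c) = G P) →
      ∀ P, IsPolygon P → ∀ c : ℂ, G (mir m fun i => P i + c) = G (mir m P) := fun G hT P hP c => by
    rw [← hT _ (mir_polygon hP) (-c)]
    congr 1
    ext i
    simp only [mir_apply]
    ring
  have h := dirQ_loop (N := fun P => N (mir m P)) (H := fun P => H (mir m P)) (D := D) hm ht
    (fun Q R hb h1 h2 => (hC _ _ (mir_br hb) h2 h1).symm)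
    (fun P hP => (hN _ (mir_polygon hP)).comp ((mir m).analyticAt P))
    (fun P hP => (hH _ (mir_polygon hP)).comp ((mir m).analyticAt P)) (tr N tN) (tr H tH)
  rintro p q ⟨⟨a, la⟩, ⟨b, lb⟩, na, nb⟩ v τ
  have sj : Function.Surjective (mir m) := fun v => ⟨mir m v, mir_mir v⟩
  have := h _ _ ⟨⟨a, lead_comp la (mir m) fun v => by rw [map_add, mir_pt hm]⟩,
    ⟨b, lead_comp lb (mir m) fun v => by rw [map_add, mir_pt hm]⟩, ne_comp sj na, ne_comp sj nb⟩
    (mir m v) τ
  simpa only [map_add, map_smul, mir_mir] using this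

end Pool.Agent.MP_62f0b1_an.Ft
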