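import Pool.Agent.MP_62f0b1_an.ft.Main
import Mathlib.RingTheory.MvPolynomial.EulerIdentity

/-!
A Ziglin lemma for quotients, by adding one homogenising variable.
-/

set_option autoImplicit false
set_option linter.unusedSectionVars false

open Set Filter Topology Asymptotics MvPolynomial Module
open scoped ContDiff

namespace Pool.Agent.MP_62f0b1_an.Ft

open Xi

variable {κ : Type*} [Fintype κ] [DecidableEq κ]

theorem ld_val {f : (κ → ℝ) → ℝ} {j : ℕ} {G : MvPolynomial κ ℝ} (hL : Ld f j G) (z : κ → ℝ) :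
    Tendsto (fun s : ℝ => f (s • z) / s ^ j) (𝓝[>] 0) (𝓝 (ev G z)) := by
  obtain ⟨C, ρ, hC0, hρ, hC⟩ := Od.ball hL.2
  rw [tendsto_iff_norm_sub_tendsto_zero]
  have h1 : Tendsto (fun s : ℝ => C * ‖z‖ ^ (j + 1) * s) (𝓝[>] 0) (𝓝 0) := by
    have : Tendsto (fun s : ℝ => C * ‖z‖ ^ (j + 1) * s) (𝓝 0) (𝓝 (C * ‖z‖ ^ (j + 1) * 0)) :=
      (continuous_const.mul continuous_id).tendsto 0
    rw [mul_zero] at this
    exact this.mono_left nhdsWithin_le_nhds
  refine squeeze_zero' (Eventually.of_forall fun _ => norm_nonneg _) ?_ h1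
  filter_upwards [ev_small_ray z hρ] with s ⟨hs, hs'⟩
  have e : ‖s • z‖ = s * ‖z‖ := by rw [norm_smul, Real.norm_eq_abs, abs_of_pos hs]
  have h2 := hC (s • z) (by rwa [e])
  have hsj : 0 < s ^ j := pow_pos hs j
  rw [ev_hom hL.1, e] at h2
  rw [show f (s • z) / s ^ j - ev G z = (f (s • z) - s ^ j * ev G z) / s ^ j by field_simp,
    norm_div, Real.norm_of_nonneg hsj.le, div_le_iff₀ hsj]
  exact h2.trans (le_of_eq (by ring))

/-- Forgetting the homogenising variable. -/
noncomputable def pr (κ : Type*) : (Option κ → ℝ) →L[ℝ] κ → ℝ :=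
  ContinuousLinearMap.pi fun a => ContinuousLinearMap.proj (some a)

/-- The functions `λ g_i`. -/
noncomputable def ext {τ : Type*} (g : τ → (κ → ℝ) → ℝ) (l : τ) (δ : Option κ → ℝ) : ℝ :=
  δ none * g l (pr κ δ)

theorem od_pr {f : (κ → ℝ) → ℝ} {j : ℕ} (h : Od f j) : Od (fun δ => f (pr κ δ)) j := by
  have t1 : Tendsto (pr κ) (𝓝 0) (𝓝 0) := by simpa using (pr κ).continuous.tendsto 0
  exact (IsBigO.comp_tendsto h t1).trans (((pr κ).isBigO_id (𝓝 0)).norm_norm.pow j)

theorem od_none (D : ℕ) : Od (fun δ : Option κ → ℝ => δ none ^ D) D :=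
  (IsBigO.of_bound' (Eventually.of_forall fun δ => by
    simpa using norm_le_pi_norm δ none)).pow D

theorem decomp {τ : Type*} [Fintype τ] [DecidableEq τ] {g : τ → (κ → ℝ) → ℝ}
    (hg : ∀ i, ContDiffAt ℝ ∞ (g i) 0) {P : MvPolynomial τ ℝ} {j : ℕ}
    {L : MvPolynomial (Option κ) ℝ} (hL : Ld (cp (ext g) P) j L) :
    ∃ (K : ℕ) (p : ℕ → MvPolynomial κ ℝ),
      (∀ D, p D = 0 ∨ ∃ i, Ld (cp g (homogeneousComponent D P)) i (p D)) ∧
      ∀ z, ev L z = ∑ D ∈ Finset.range K, z none ^ D * ev (p D) (pr κ z) := by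
  set K := P.totalDegree + 1 with hK
  have tot : ∀ z, cp (ext g) P z =
      ∑ D ∈ Finset.range K, z none ^ D * cp g (homogeneousComponent D P) (pr κ z) := fun z => by
    conv_lhs => rw [← sum_homogeneousComponent P]
    simp only [cp, ev, map_sum]
    exact Finset.sum_congr rfl fun D _ =>
      ev_hom (homogeneousComponent_isHomogeneous D P) (z none) fun l => g l (pr κ z)
  have key : ∀ i, (∀ D, Od (cp g (homogeneousComponent D P)) (i - D)) →
      ∃ p : ℕ → MvPolynomial κ ℝ, (∀ D, i < D → p D = 0) ∧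
        (∀ D, D ≤ i → Ld (cp g (homogeneousComponent D P)) (i - D) (p D)) ∧
        (∀ (s : ℝ) z, ∑ D ∈ Finset.range K, (s • z) none ^ D * ev (p D) (pr κ (s • z)) =
          s ^ i * ∑ D ∈ Finset.range K, z none ^ D * ev (p D) (pr κ z)) ∧
        Od (fun z => cp (ext g) P z - ∑ D ∈ Finset.range K, z none ^ D * ev (p D) (pr κ z))
          (i + 1) := fun i hi => by
    choose q hq using fun D => exists_ld (cp_contDiffAt hg _) (hi D)
    refine ⟨fun D => if D ≤ i then q D else 0, fun D h => if_neg h.not_ge,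
      fun D h => by simpa only [h, if_true] using hq D, fun s z => ?_, ?_⟩
    · rw [Finset.mul_sum]
      refine Finset.sum_congr rfl fun D _ => ?_
      dsimp only
      split_ifs with h
      · rw [map_smul, ev_hom (hq D).1, Pi.smul_apply, smul_eq_mul, mul_pow,
          ← pow_sub_mul_pow s h]
        ring
      · simp [ev]
    · simp only [tot, ← Finset.sum_sub_distrib, ← mul_sub]
      refine IsBigO.fun_sum fun D _ => ?_
      split_ifs with h
      · have := (od_none D).mul (od_pr (hq D).2)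
        rwa [show D + (i - D + 1) = i + 1 by omega] at this
      · have := (od_none D).mul (od_pr (hq D).od)
        simpa [ev, Od] using this.mono (show i + 1 ≤ D + (i - D) by omega)
  have ord : ∀ i ≤ j, ∀ D, Od (cp g (homogeneousComponent D P)) (i - D) := by
    intro i
    induction i with
    | zero => intro _ D; rw [Nat.zero_sub]; exact od_zero (cp_contDiffAt hg _).continuousAt
    | succ i ih =>
      intro hi D
      obtain ⟨p, -, p2, p3, p4⟩ := key i (ih (by omega))
      have h1 := hom_zero p3 (by simpa [Od] using IsBigO.sub (hL.od.mono hi) p4)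
      by_cases hD : D ≤ i
      · by_cases hK' : D < K
        · have h2 : p D = 0 := ev_eq_zero fun z => by
            have h3 : (∑ D ∈ Finset.range K, Polynomial.monomial D (ev (p D) z)) = 0 :=
              Polynomial.funext fun s => by
                have := h1 fun o => o.elim s z
                simpa [Polynomial.eval_finsetSum, mul_comm, pr] using this
            simpa [Polynomial.coeff_monomial, hK'] using congrArg (Polynomial.coeff · D) h3
          rw [show i + 1 - D = i - D + 1 by omega]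
          exact (h2 ▸ p2 D hD).od_succ
        · rw [homogeneousComponent_eq_zero _ _ (by omega)]
          exact (isBigO_zero _ _).congr_left fun δ => by simp [cp, ev]
      · rw [show i + 1 - D = 0 by omega]
        exact od_zero (cp_contDiffAt hg _).continuousAt
  obtain ⟨p, p1, p2, p3, p4⟩ := key j (ord j le_rfl)
  refine ⟨K, p, fun D => (lt_or_ge j D).imp (p1 D) fun h => ⟨_, p2 D h⟩, fun z => ?_⟩
  refine sub_eq_zero.1 (hom_zero (j := j) (f := fun z => ev L z -
    ∑ D ∈ Finset.range K, z none ^ D * ev (p D) (pr κ z)) (fun s z => ?_) ?_ z)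
  · rw [p3, ev_hom hL.1, mul_sub]
  · simpa [Od] using IsBigO.sub p4 hL.2

/-- Numerator of the differential of `g i / g 0`. -/
noncomputable def th {k : ℕ} (g : Fin (k + 1) → (κ → ℝ) → ℝ) (i : Fin (k + 1)) (δ : κ → ℝ) :
    (κ → ℝ) →L[ℝ] ℝ := g 0 δ • fderiv ℝ (g i) δ - g i δ • fderiv ℝ (g 0) δ

/-- Numerator of the differential of `p / h ^ D`. -/
noncomputable def be (h p : MvPolynomial κ ℝ) (D : ℕ) (z : κ → ℝ) : (κ → ℝ) →L[ℝ] ℝ :=
  ev h z • fderiv ℝ (ev p) z - (D * ev p z) • fderiv ℝ (ev h) z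

theorem rank_step {V : Type*} [AddCommGroup V] [Module ℝ V] [FiniteDimensional ℝ V]
    (S : Submodule ℝ V) {k : ℕ} (s : Fin (k + 2) → V) (hs : ∀ m, s m ∈ S) (r : Fin (k + 2) → ℝ)
    (h : ∀ c : Fin (k + 2) → ℝ, ∑ m, c m • s m = 0 → ∑ m, c m * r m = 0 → ∀ m, c m = 0) :
    ∃ v : Fin (k + 1) → V, (∀ m, v m ∈ S) ∧ LinearIndependent ℝ v := by
  have hY : LinearIndependent ℝ fun m => ((⟨s m, hs m⟩, r m) : S × ℝ) := by
    refine Fintype.linearIndependent_iff.2 fun c hc => h c ?_ ?_
    · simpa [Prod.fst_sum] using congrArg (fun x : S × ℝ => (x.1 : V)) hc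
    · simpa [Prod.snd_sum] using congrArg Prod.snd hc
  have h1 := hY.fintype_card_le_finrank
  rw [Fintype.card_fin, finrank_prod, finrank_self] at h1
  obtain ⟨v, hv⟩ := exists_linearIndependent_of_le_finrank (R := ℝ) (M := S) (n := k + 1)
    (by omega)
  exact ⟨fun m => v m, fun m => (v m).2, hv.map' S.subtype S.ker_subtype⟩

theorem mero_flat {k : ℕ} (hcard : Fintype.card κ = 2 * (k + 2))
    (B : (κ → ℝ) →ₗ[ℝ] (κ → ℝ) →L[ℝ] ℝ) (anti : ∀ v w, B v w = -B w v) {t : κ → ℝ} (ht : t ≠ 0)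
    (hBt : B t = 0) {u₁ u₂ : κ → ℝ} (hu : B u₁ u₂ ≠ 0) {g : Fin (k + 2) → (κ → ℝ) → ℝ}
    (hg : ∀ l, ContDiffAt ℝ ∞ (g l) 0) {b : ℕ} {h : MvPolynomial κ ℝ} (hb : Ld (g 0) b h)
    (h0 : h ≠ 0) (hr : ∀ᶠ δ in 𝓝 (0 : κ → ℝ), g 0 δ ≠ 0 → ∀ l, ∃ v, B v = th g l δ)
    (hc : ∀ᶠ δ in 𝓝 (0 : κ → ℝ), g 0 δ ≠ 0 → ∀ l l' v, B v = th g l δ → th g l' δ v = 0)
    (hinv : ∀ P D j p, P.IsHomogeneous D → Ld (cp g P) j p → ∀ z, ev h z ≠ 0 →
      be h p D z u₁ = 0 ∧ be h p D z u₂ = 0)
    (v : Fin (k + 2) → Option κ → ℝ) (N : ℕ) :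
    Od (fun δ => (Matrix.of fun l l' => fderiv ℝ (ext g l) δ (v l')).det) N := by
  refine ziglin (fun l => (contDiffAt_apply ℝ ℝ none 0).mul
    (ContDiffAt.comp (g := g l) 0 (by simpa using hg l) (pr κ).contDiff.contDiffAt))
    (fun z₀ L hL hind₀ => ?_) v N
  obtain ⟨y, hind, hz⟩ : ∃ y, (LinearIndependent ℝ fun m => fderiv ℝ (ev (L m)) y) ∧
      ev h (pr κ y) ≠ 0 := by
    obtain ⟨M, hM⟩ := not_flat h0 (pr κ z₀)
    have c1 : Continuous fun (δ : κ → ℝ) m => fderiv ℝ (ev (L m)) (z₀ + fun o => o.elim 0 δ) :=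
      continuous_pi fun m => (fderiv_ev_cont _).comp (continuous_const.add
        (continuous_pi fun o => by cases o <;> simp only [Option.elim] <;> fun_prop))
    have h1 := c1.continuousAt.eventually (isOpen_setOfPred_linearIndependent.mem_nhds
      (show (fun m => fderiv ℝ (ev (L m)) (z₀ + fun o => o.elim 0 (0 : κ → ℝ))) ∈ _ by
        have : (fun o : Option κ => o.elim (0 : ℝ) (0 : κ → ℝ)) = 0 := by
          ext o; cases o <;> rfl
        rw [this, add_zero]
        exact hind₀))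
    by_contra hn
    refine hM ((isBigO_zero _ _).congr' ?_ EventuallyEq.rfl)
    filter_upwards [h1] with δ hδ
    by_contra h2
    exact hn ⟨_, hδ, fun h3 => h2 h3.symm⟩
  set z := pr κ y with hzy
  have : Module.Free ℝ (LinearMap.range B) := Module.Free.of_divisionRing ℝ (LinearMap.range B)
  obtain ⟨g', hg'⟩ := B.rangeRestrict.exists_rightInverse_of_surjective
    (LinearMap.range_rangeRestrict B)
  obtain ⟨H, hH⟩ := g'.exists_extend
  have hBH : ∀ x, B (H (B x)) = B x := fun x => by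
    have a1 : H (B x) = g' ⟨B x, x, rfl⟩ := LinearMap.congr_fun hH ⟨B x, x, rfl⟩
    rw [a1]
    exact congrArg Subtype.val (LinearMap.congr_fun hg' ⟨B x, x, rfl⟩)
  have Hc : Continuous H := H.continuous_of_finiteDimensional
  have Bc : Continuous B := B.continuous_of_finiteDimensional
  have hray : Tendsto (fun s : ℝ => s • z) (𝓝[>] 0) (𝓝 0) := by
    have : Continuous fun s : ℝ => s • z := by fun_prop
    simpa using (this.tendsto 0).mono_left (nhdsWithin_le_nhds (s := Ioi 0))
  let T : Set ((κ → ℝ) →L[ℝ] ℝ) :=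
    {β | ∃ P D j p, P.IsHomogeneous D ∧ Ld (cp g P) j p ∧ β = be h p D z}
  have app : ∀ β ∈ T, ∃ c : ℝ → Fin (k + 2) → ℝ,
      Tendsto (fun s : ℝ => ∑ l, c s l • th g l (s • z)) (𝓝[>] 0) (𝓝 β) := by
    rintro _ ⟨P, D, j, p, hP, hp, rfl⟩
    refine ⟨fun s l => s / s ^ j / s ^ b * cp g (pderiv l P) (s • z), ?_⟩
    refine (((ld_val hb z).smul (hp.tendsto (cp_contDiffAt hg _) z)).sub
      (((ld_val hp z).const_mul (D : ℝ)).smul (hb.tendsto (hg 0) z))).congr' ?_
    filter_upwards [hray.eventually (eventually_all.2 fun l => ev_diff_near (hg l))] with s h3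
    have eu : (D : ℝ) * cp g P (s • z) = ∑ l, g l (s • z) * cp g (pderiv l P) (s • z) := by
      have := congrArg (eval fun l => g l (s • z)) hP.sum_X_mul_pderiv
      simpa [cp, ev] using this.symm
    ext1 w
    simp only [th, sub_apply, smul_apply, smul_eq_mul, cp_fderiv h3, sum_apply, ← mul_div_assoc,
      eu, Finset.mul_sum, Finset.sum_mul, Finset.sum_div, ← Finset.sum_sub_distrib]
    exact Finset.sum_congr rfl fun l _ => by ring
  have ev1 : ∀ᶠ s in 𝓝[>] (0 : ℝ), ∀ c c' : Fin (k + 2) → ℝ,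
      B (H (∑ l, c l • th g l (s • z))) = ∑ l, c l • th g l (s • z) ∧
        (∑ l, c' l • th g l (s • z)) (H (∑ l, c l • th g l (s • z))) = 0 := by
    filter_upwards [hray.eventually hr, hray.eventually hc, (ld_val hb z).eventually_ne hz]
      with s h1 h2 h3 c c'
    have h4 := (div_ne_zero_iff.1 h3).1
    choose w hw using h1 h4
    have a1 : ∀ l l', B (w l') (H (B (w l))) = 0 := fun l l' => by
      rw [hw l']
      exact h2 h4 l l' _ (by rw [hBH, hw])
    simp [← hw, hBH, a1]
  have k1 : ∀ β ∈ Submodule.span ℝ T, B (H β) = β ∧ β u₁ = 0 ∧ β u₂ = 0 := fun β hβ => by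
    induction hβ using Submodule.span_induction with
    | mem β hβ =>
      obtain ⟨c, hc⟩ := app β hβ
      obtain ⟨P, D, j, p, hP, hp, rfl⟩ := hβ
      exact ⟨tendsto_nhds_unique (((Bc.comp Hc).tendsto _).comp hc)
        (hc.congr' (ev1.mono fun s hs => (hs (c s) (c s)).1.symm)), hinv P D j p hP hp z hz⟩
    | zero => simp
    | add x y _ _ hx hy => simp [hx.1, hx.2.1, hx.2.2, hy.1, hy.2.1, hy.2.2]
    | smul a x _ hx => simp [hx.1, hx.2.1, hx.2.2]
  have k2 : ∀ β ∈ Submodule.span ℝ T, ∀ β' ∈ Submodule.span ℝ T, β' (H β) = 0 := fun β hβ => by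
    induction hβ using Submodule.span_induction with
    | mem β hβ =>
      intro β' hβ'
      induction hβ' using Submodule.span_induction with
      | mem β' hβ' =>
        obtain ⟨c, hc⟩ := app β hβ
        obtain ⟨c', hc'⟩ := app β' hβ'
        exact tendsto_nhds_unique ((isBoundedBilinearMap_apply.continuous.tendsto _).comp
          (hc'.prodMk_nhds ((Hc.tendsto _).comp hc)))
          (tendsto_const_nhds.congr' (ev1.mono fun s hs => (hs (c s) (c' s)).2.symm))
      | zero => simp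
      | add x y _ _ hx hy => simp [hx, hy]
      | smul a x _ hx => simp [hx]
    | zero => simp
    | add x y _ _ hx hy => intro β' hβ'; simp [hx β' hβ', hy β' hβ']
    | smul a x _ hx => intro β' hβ'; simp [hx β' hβ']
  choose P j hL using hL
  choose K p hp hK using fun m => decomp hg (hL m)
  let ι : (κ → ℝ) → Option κ → ℝ := fun w o =>
    o.elim (-(y none / ev h z * fderiv ℝ (ev h) z w)) w
  have mem : ∀ m, ∑ D ∈ Finset.range (K m), (y none ^ D / ev h z) • be h (p m D) D z ∈
      Submodule.span ℝ T := fun m => Submodule.sum_mem _ fun D _ => Submodule.smul_mem _ _ (by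
    rcases hp m D with h1 | ⟨i, h1⟩
    · have : ev (0 : MvPolynomial κ ℝ) = fun _ => 0 := by ext; simp [ev]
      simp [h1, be, this]
    · exact Submodule.subset_span ⟨_, D, i, _, homogeneousComponent_isHomogeneous D _, h1, rfl⟩)
  have der : ∀ m w, fderiv ℝ (ev (L m)) y (ι w) =
      (∑ D ∈ Finset.range (K m), (y none ^ D / ev h z) • be h (p m D) D z) w := fun m w => by
    have h1 := HasFDerivAt.fun_sum (u := Finset.range (K m)) fun D _ =>
      ((hasFDerivAt_apply (𝕜 := ℝ) none y).pow D).fun_mul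
        (HasFDerivAt.comp (g := ev (p m D)) (f := pr κ) y (ev_diff (p m D) z).hasFDerivAt
          (pr κ).hasFDerivAt)
    have h2 : fderiv ℝ (ev (L m)) y = _ := (h1.congr_of_eventuallyEq
      (Eventually.of_forall (hK m))).fderiv
    rw [h2]
    simp only [sum_apply, add_apply, smul_apply, smul_eq_mul, be, sub_apply,
      ContinuousLinearMap.comp_apply, ContinuousLinearMap.proj_apply, Function.comp_apply,
      nsmul_eq_mul]
    refine Finset.sum_congr rfl fun D _ => ?_
    have e1 : pr κ (ι w) = w := rfl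
    have e2 : ι w none = -(y none / ev h z * fderiv ℝ (ev h) z w) := rfl
    rw [e1, e2, ← hzy]
    cases D with
    | zero => simp; field_simp
    | succ D => simp; field_simp; ring
  obtain ⟨s, hs, hi⟩ := rank_step (V := (κ → ℝ) →L[ℝ] ℝ) _ _ mem
    (fun m => fderiv ℝ (ev (L m)) y (Pi.single none 1)) fun c a1 a2 => by
      refine Fintype.linearIndependent_iff.1 hind c ?_
      ext1 u
      have a3 : ∑ m, c m * fderiv ℝ (ev (L m)) y (ι (pr κ u)) = 0 := by
        have a4 := congrArg (fun x : (κ → ℝ) →L[ℝ] ℝ => x (pr κ u)) a1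
        simp only [der]
        simpa only [zero_apply, sum_apply, smul_apply, smul_eq_mul] using a4
      have e : u = ι (pr κ u) + (u none - ι (pr κ u) none) • (Pi.single none 1 : Option κ → ℝ) := by
        ext o
        cases o with
        | none => simp
        | some a => simp [ι, pr]
      rw [e, map_add, map_smul]
      simp only [sum_apply, smul_apply, smul_eq_mul, a2, a3, mul_zero, add_zero, zero_apply]
  refine dep_of_isotropic hcard B anti ht hBt hu (fun m => H (s m))
    (fun m m' => by rw [(k1 _ (hs m)).1]; exact k2 _ (hs m') _ (hs m))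
    (fun m => by rw [(k1 _ (hs m)).1]; exact (k1 _ (hs m)).2.1)
    (fun m => by rw [(k1 _ (hs m)).1]; exact (k1 _ (hs m)).2.2) ?_
  simpa only [fun m => (k1 _ (hs m)).1] using hi

end Pool.Agent.MP_62f0b1_an.Ft
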