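import Pool.Agent.MP_62f0b1_an.ft.Mero2
import Pool.Agent.MP_62f0b1_an.ft.Mero3

/-!
Meromorphic commuting integrals of `f_t` on odd-gons, `n ≥ 5`, are dependent.
-/

set_option autoImplicit false
set_option linter.unusedSectionVars false

open Set Filter Topology Asymptotics Module
open scoped ContDiff

namespace Pool.Agent.MP_62f0b1_an.Ft

open Xi

section gen
variable {κ : Type*} [Fintype κ] [DecidableEq κ] {E : Type*} [NormedAddCommGroup E]
  [NormedSpace ℝ E]

theorem ld_lead {G : E → ℝ} {Y : E} (hG : AnalyticAt ℝ G Y) (e : (κ → ℝ) ≃L[ℝ] E) {j : ℕ}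
    {H : MvPolynomial κ ℝ} (hL : Ld (fun δ => G (Y + e δ)) j H) :
    Lead G Y j fun v => ev H (e.symm v) := by
  have ha : AnalyticAt ℝ (fun δ => G (Y + e δ)) 0 :=
    AnalyticAt.comp (g := G) (by simpa using hG) (analyticAt_const.add (e.analyticAt 0))
  obtain ⟨p, hp⟩ := exists_lead ha (k := j) (by simpa [Ord, Od] using hL.od)
  have h1 := lead_comp hp (e.symm : E →L[ℝ] (κ → ℝ)) (G' := G) (x' := Y) fun v => by simp
  have h2 : ∀ z, p z = ev H z := fun z => sub_eq_zero.1 (hom_zero (f := fun z => p z - ev H z)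
    (fun s z => by rw [hp.hom, ev_hom hL.1, mul_sub]) (by
      obtain ⟨-, -, h3⟩ := hp
      simpa [Od] using IsBigO.sub hL.2 h3) z)
  simp only [h2] at h1
  exact h1

theorem lead_unique {G p q : E → ℝ} {x : E} {k : ℕ} (hp : Lead G x k p) (hq : Lead G x k q)
    (v : E) : p v = q v :=
  have d : HasDerivAt (fun τ : ℝ => x + τ • v) v 0 :=
    (((hasDerivAt_id (0 : ℝ)).smul_const v).const_add x).congr_deriv (by simp)
  tendsto_nhds_unique (hp.tendsto (by simp) d) (hq.tendsto (by simp) d)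

theorem be_dir {N H : E → ℝ} {Y w : E} {D : ℕ} (hN : AnalyticAt ℝ N Y) (hH : AnalyticAt ℝ H Y)
    (e : (κ → ℝ) ≃L[ℝ] E) (hw : DirQ N H D Y w) {j b : ℕ} {p h : MvPolynomial κ ℝ}
    (hp : Ld (fun δ => N (Y + e δ)) j p) (hh : Ld (fun δ => H (Y + e δ)) b h) {z : κ → ℝ}
    (hz : ev h z ≠ 0) : be h p D z (e.symm w) = 0 := by
  by_cases h0 : ∃ v, ev p (e.symm v) ≠ 0
  swap
  · have : ev p = fun _ => 0 := funext fun v => by
      by_contra h1
      exact h0 ⟨e v, by simpa using h1⟩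
    simp [be, this]
  have h1 := hw _ _ ⟨⟨j, ld_lead hN e hp⟩, ⟨b, ld_lead hH e hh⟩, h0, e z, by simpa using hz⟩ (e z)
  simp only [map_add, map_smul, e.symm_apply_apply] at h1
  have d1 : HasDerivAt (fun s : ℝ => z + s • e.symm w) (e.symm w) 0 :=
    (((hasDerivAt_id (0 : ℝ)).smul_const (e.symm w)).const_add z).congr_deriv (by simp)
  have d2 := (HasFDerivAt.comp_hasDerivAt_of_eq (0 : ℝ) (ev_diff p z).hasFDerivAt d1
    (by simp)).mul_const (ev h z ^ D)
  have d3 := ((HasFDerivAt.comp_hasDerivAt_of_eq (0 : ℝ) (ev_diff h z).hasFDerivAt d1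
    (by simp)).fun_pow D).const_mul (ev p z)
  have h2 := d2.unique (d3.congr_of_eventuallyEq (Eventually.of_forall h1))
  simp only [Function.comp_apply, zero_smul, add_zero] at h2
  simp only [be, sub_apply, smul_apply, smul_eq_mul]
  cases D with
  | zero => simp at h2 ⊢; simp [h2]
  | succ D =>
    refine mul_left_cancel₀ (pow_ne_zero D hz) ?_
    rw [Nat.add_sub_cancel] at h2
    linear_combination h2

theorem theta_eq {G H : E → ℝ} {P : E} (hG : DifferentiableAt ℝ G P) (hH : DifferentiableAt ℝ H P)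
    (h0 : H P ≠ 0) (w : E) : H P * fderiv ℝ G P w - G P * fderiv ℝ H P w =
      H P ^ 2 * fderiv ℝ (fun Q => G Q / H Q) P w := by
  have hq : DifferentiableAt ℝ (fun Q => G Q / H Q) P := by
    simpa only [div_eq_mul_inv] using hG.fun_mul (hH.fun_inv h0)
  have h1 := (hq.hasFDerivAt.fun_mul hH.hasFDerivAt).congr_of_eventuallyEq
    (f₁ := G) ((hH.continuousAt.eventually_ne h0).mono fun Q hQ => by field_simp)
  rw [h1.fderiv]
  simp only [add_apply, smul_apply, smul_eq_mul]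
  field_simp
  ring

end gen

theorem mero_of_dir {k : ℕ} (hk : Even (k + 1)) {Y w₁ w₂ : Fin (k + 2) → ℂ} (hY : IsPolygon Y)
    (hω : omegaForm w₁ w₂ ≠ 0) (F : Fin (k + 2) → (Fin (k + 2) → ℂ) → ℝ)
    (hF : ∀ l, AnalyticOnNhd ℝ (F l) {P | IsPolygon P})
    (htr : ∀ l P, IsPolygon P → ∀ c : ℂ, F l (fun i => P i + c) = F l P)
    (hpo : ∀ (l l' : Fin (k + 1)) P, IsPolygon P → F 0 P ≠ 0 → ∀ v,
      (∀ w, omegaForm v w = fderiv ℝ (fun Q => F l.succ Q / F 0 Q) P w) →
      fderiv ℝ (fun Q => F l'.succ Q / F 0 Q) P v = 0)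
    (hdir : ∀ (P : MvPolynomial _ ℝ) D, P.IsHomogeneous D →
      DirQ (cp F P) (F 0) D Y w₁ ∧ DirQ (cp F P) (F 0) D Y w₂)
    (P : Fin (k + 2) → ℂ) (hP : IsPolygon P) (hP0 : F 0 P ≠ 0) :
    ¬ LinearIndependent ℝ fun l : Fin (k + 1) => fderiv ℝ (fun Q => F l.succ Q / F 0 Q) P := by
  intro hind
  let e : (Fin (2 * (k + 2)) → ℝ) ≃L[ℝ] (Fin (k + 2) → ℂ) :=
    ContinuousLinearEquiv.ofFinrankEq (by
      simp [Module.finrank_pi_fintype, Complex.finrank_real_complex, mul_comm])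
  have hF' : ∀ l P, IsPolygon P → DifferentiableAt ℝ (F l) P := fun l P hP =>
    (hF l P hP).differentiableAt
  let f : Fin (k + 2) → (Fin (2 * (k + 2)) → ℝ) → ℝ := fun l δ => F l (Y + e δ)
  have hfa : ∀ l δ, IsPolygon (Y + e δ) → AnalyticAt ℝ (f l) δ := fun l δ h =>
    AnalyticAt.comp (g := F l) (hF l _ h) (analyticAt_const.add (e.analyticAt δ))
  have hfd : ∀ l δ, IsPolygon (Y + e δ) → ∀ w,
      fderiv ℝ (f l) δ w = fderiv ℝ (F l) (Y + e δ) (e w) := fun l δ h w => by
    have h1 := (hF' l _ h).hasFDerivAt.comp δ (e.hasFDerivAt.const_add Y)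
    have h2 : fderiv ℝ (f l) δ = _ := h1.fderiv
    rw [h2]; rfl
  have hth : ∀ l δ, IsPolygon (Y + e δ) → f 0 δ ≠ 0 → ∀ w, th f l δ w =
      f 0 δ ^ 2 * fderiv ℝ (fun Q => F l Q / F 0 Q) (Y + e δ) (e w) := fun l δ h h0 w => by
    simp only [th, sub_apply, smul_apply, smul_eq_mul, hfd _ δ h]
    exact theta_eq (hF' _ _ h) (hF' _ _ h) h0 _
  have hnear : ∀ᶠ δ in 𝓝 (0 : Fin (2 * (k + 2)) → ℝ), IsPolygon (Y + e δ) := by
    have : Continuous fun δ => Y + e δ := by fun_prop
    exact this.continuousAt.eventually (isOpen_polygon.mem_nhds (by simpa using hY))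
  let B : (Fin (2 * (k + 2)) → ℝ) →ₗ[ℝ] (Fin (2 * (k + 2)) → ℝ) →L[ℝ] ℝ :=
    LinearMap.toContinuousLinearMap.toLinearMap ∘ₗ LinearMap.mk₂ ℝ
      (fun a b => omegaForm (e a) (e b))
      (fun a a' b => by
        simp only [omega_eq, map_add, ← Finset.sum_add_distrib]
        refine Finset.sum_congr rfl fun i _ => Finset.sum_congr rfl fun j _ => ?_
        simp only [ip, Pi.add_apply, Complex.add_re, Complex.add_im]; ring)
      (fun s a b => by
        simp only [omega_eq, map_smul, smul_eq_mul, Finset.mul_sum]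
        refine Finset.sum_congr rfl fun i _ => Finset.sum_congr rfl fun j _ => ?_
        simp only [ip, Pi.smul_apply, Complex.smul_re, Complex.smul_im, smul_eq_mul]; ring)
      (fun a b b' => by
        simp only [omega_eq, map_add, ← Finset.sum_add_distrib]
        refine Finset.sum_congr rfl fun i _ => Finset.sum_congr rfl fun j _ => ?_
        simp only [ip, Pi.add_apply, Complex.add_re, Complex.add_im]; ring)
      (fun s a b => by
        simp only [omega_eq, map_smul, smul_eq_mul, Finset.mul_sum]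
        refine Finset.sum_congr rfl fun i _ => Finset.sum_congr rfl fun j _ => ?_
        simp only [ip, Pi.smul_apply, Complex.smul_re, Complex.smul_im, smul_eq_mul]; ring)
  have hB : ∀ a b, B a b = omegaForm (e a) (e b) := fun _ _ => rfl
  have hcp : ∀ P, AnalyticAt ℝ (cp F P) Y := fun P =>
    (ev_analytic P _).comp (analyticAt_pi_iff.2 fun l => hF l Y hY)
  have hf : ∀ l, ContDiffAt ℝ ∞ (f l) 0 := fun l => (hfa l 0 (by simpa using hY)).contDiffAt
  obtain ⟨b, h, h0, hb⟩ : ∃ b, ∃ h ≠ 0, Ld (f 0) b h := by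
    obtain ⟨b, q, lq, v, hv⟩ := exists_lead_ne preconn_polygon (hF 0) ⟨P, hP, hP0⟩ hY
    have l2 := lead_comp lq (e : (Fin (2 * (k + 2)) → ℝ) →L[ℝ] _) (G' := f 0) (x' := 0)
      fun v => by simp [f]
    obtain ⟨h, hh⟩ := exists_ld (hf 0) (j := b) (by simpa [Ord, Od] using l2.ord)
    refine ⟨b, h, fun h0 => hv ?_, hh⟩
    have := lead_unique lq (ld_lead (hF 0 Y hY) e hh) v
    simpa [h0, ev] using this
  let z₀ : Option (Fin (2 * (k + 2))) → ℝ := fun o => o.elim 1 (e.symm (P - Y))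
  have hz₀ : Y + e (pr _ z₀) = P := by
    rw [show pr _ z₀ = e.symm (P - Y) from rfl]; simp
  have hxd : ∀ l u, fderiv ℝ (ext f l) z₀ u =
      fderiv ℝ (F l) P (e (pr _ u)) + F l P * u none := fun l u => by
    have h1 := (hasFDerivAt_apply (𝕜 := ℝ) none z₀).fun_mul
      (HasFDerivAt.comp (g := f l) (f := pr _) z₀
        (hfa l _ (by rwa [hz₀])).differentiableAt.hasFDerivAt (pr _).hasFDerivAt)
    have h2 : fderiv ℝ (ext f l) z₀ = _ := h1.fderiv
    rw [h2]
    simp only [add_apply, smul_apply, smul_eq_mul, ContinuousLinearMap.comp_apply,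
      Function.comp_apply, ContinuousLinearMap.proj_apply]
    rw [hfd _ _ (by rwa [hz₀]), hz₀, show f l (pr _ z₀) = F l P from congrArg (F l) hz₀]
    exact congrArg (· + _) (one_mul _)
  have hind' : LinearIndependent ℝ fun l => fderiv ℝ (ext f l) z₀ := by
    refine Fintype.linearIndependent_iff.2 fun c hc => ?_
    have a0 : ∀ u, ∑ l, c l * (fderiv ℝ (F l) P (e (pr _ u)) + F l P * u none) = 0 := fun u => by
      simpa [hxd] using congrArg (fun x : _ →L[ℝ] ℝ => x u) hc
    have a1 : ∑ l, c l * F l P = 0 := by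
      have := a0 (fun o => o.elim 1 0)
      rw [show pr _ (fun o : Option (Fin (2 * (k + 2))) => o.elim (1 : ℝ) 0) = 0 from rfl] at this
      simpa using this
    have a2 : ∀ w, ∑ l, c l * fderiv ℝ (F l) P w = 0 := fun w => by
      have := a0 (fun o => o.elim 0 (e.symm w))
      rw [show pr _ (fun o : Option (Fin (2 * (k + 2))) => o.elim (0 : ℝ) (e.symm w)) = e.symm w
        from rfl] at this
      simpa using this
    have a3 := Fintype.linearIndependent_iff.1 hind (fun l => c l.succ) (by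
      ext1 w
      refine mul_left_cancel₀ (pow_ne_zero 2 hP0) ?_
      simp only [sum_apply, smul_apply, smul_eq_mul, Finset.mul_sum, mul_left_comm (F 0 P ^ 2),
        ← theta_eq (hF' _ _ hP) (hF' _ _ hP) hP0, zero_apply, mul_zero]
      have b1 := a2 w
      rw [Fin.sum_univ_succ] at a1 b1
      simp only [mul_sub, Finset.sum_sub_distrib, mul_left_comm _ (F 0 P), ← mul_assoc,
        ← Finset.sum_mul]
      simp only [mul_assoc, ← Finset.mul_sum]
      linear_combination F 0 P * b1 - fderiv ℝ (F 0) P w * a1)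
    refine Fin.cases ?_ a3
    rw [Fin.sum_univ_succ] at a1
    simpa [a3, hP0] using a1
  have hker : ∀ δ, IsPolygon (Y + e δ) → ∀ w, (∀ a, B a w = 0) → ∀ l, th f l δ w = 0 :=
    fun δ hδ w hw l => by
      have h1 : e w = fun _ => e w 0 := funext (omega_ker hk fun a => by
        have := hw (e.symm a)
        rwa [hB, e.apply_symm_apply] at this)
      have h2 : ∀ l, fderiv ℝ (f l) δ w = 0 := fun l => by
        rw [hfd l δ hδ]
        set P := Y + e δ
        have d1 : HasDerivAt (fun s : ℝ => P + s • e w) (e w) 0 :=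
          (((hasDerivAt_id (0 : ℝ)).smul_const (e w)).const_add P).congr_deriv (by simp)
        have d2 := HasFDerivAt.comp_hasDerivAt_of_eq (0 : ℝ) (hF' l _ hδ).hasFDerivAt d1 (by simp)
        have d3 : (F l ∘ fun s : ℝ => P + s • e w) = fun _ => F l P := by
          ext s
          rw [← htr l P hδ (s • e w 0), h1]
          rfl
        rw [d3] at d2
        exact d2.unique (hasDerivAt_const _ _)
      simp [th, h2]
  obtain ⟨v, hv⟩ := exists_dual_family hind'
  have hO := mero_flat (g := f) (by simp) B (fun a b => by rw [hB, hB, omega_anti])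
    (t := e.symm fun _ => 1) (fun h => by
      have := congrFun (congrArg e h) 0
      simp at this) (by
      ext1 w
      have h1 : (fun _ => 1 : Fin (k + 2) → ℂ) = mid fun _ => 1 := by
        ext i; simp only [mid]; norm_num
      rw [hB, e.apply_symm_apply, h1, omega_mid hk]
      simp only [ip, Complex.one_re, Complex.one_im, Complex.sub_re, one_mul, zero_mul, add_zero,
        Finset.sum_sub_distrib]
      rw [← Equiv.sum_comp (Equiv.subRight (1 : Fin (k + 2))) fun i => (e w i).re]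
      simp)
    (u₁ := e.symm w₁) (u₂ := e.symm w₂) (by rwa [hB, e.apply_symm_apply, e.apply_symm_apply])
    hf hb h0
    (hnear.mono fun δ hδ _ l => exists_of_ker B _ fun w hw => hker δ hδ w hw l)
    (hnear.mono fun δ hδ h0 l l' u => by
      refine Fin.cases (fun _ => by simp [th]) (fun l' => ?_) l'
      refine Fin.cases (fun hu => ?_) (fun l hu => ?_) l
      · refine hker δ hδ u (fun a => ?_) _
        rw [hB, omega_anti, ← hB, hu]
        simp [th]
      · rw [hth _ δ hδ h0]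
        have := hpo l l' _ hδ h0 ((f 0 δ ^ 2)⁻¹ • e u) fun w => by
          rw [← map_smul, ← e.apply_symm_apply w, ← hB, map_smul, hu, smul_apply, hth _ δ hδ h0,
            smul_eq_mul, inv_mul_cancel_left₀ (pow_ne_zero 2 h0)]
        rw [map_smul, smul_eq_zero] at this
        rw [this.resolve_left (inv_ne_zero (pow_ne_zero 2 h0)), mul_zero])
    (fun Q D j p hQ hp z hz => ⟨be_dir (hcp Q) (hF 0 Y hY) e (hdir Q D hQ).1 hp hb hz,
      be_dir (hcp Q) (hF 0 Y hY) e (hdir Q D hQ).2 hp hb hz⟩) v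
  let Ω : Set (Option (Fin (2 * (k + 2))) → ℝ) := {z | IsPolygon (Y + e (pr _ z))}
  have hΩ : IsPreconnected Ω := by
    have := (preconn_polygon (n := k + 2).prod (isPreconnected_univ (α := ℝ))).image
      (fun x => fun o : Option (Fin (2 * (k + 2))) => o.elim x.2 (e.symm (x.1 - Y)))
      (continuous_pi fun o => by cases o <;> simp only [Option.elim] <;> fun_prop).continuousOn
    convert this using 1
    ext z
    constructor
    · intro hz
      refine ⟨(Y + e (pr _ z), z none), ⟨hz, trivial⟩, ?_⟩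
      ext o
      cases o <;> simp [pr]
    · rintro ⟨x, ⟨hx, -⟩, rfl⟩
      change IsPolygon (Y + e (e.symm (x.1 - Y)))
      simpa using hx
  have h5 : AnalyticOnNhd ℝ (fun δ => (Matrix.of fun l l' => fderiv ℝ (ext f l) δ (v l')).det) Ω := by
    simp only [Matrix.det_apply', Matrix.of_apply]
    intro Q hQ
    refine Finset.analyticAt_fun_sum _ fun p _ => analyticAt_const.mul
      (Finset.analyticAt_fun_prod _ fun i _ => ?_)
    refine ((ContinuousLinearMap.apply ℝ ℝ (v i)).analyticAt _).comp (AnalyticAt.fderiv ?_)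
    exact ((ContinuousLinearMap.proj none : (Option _ → ℝ) →L[ℝ] ℝ).analyticAt Q).mul
      (AnalyticAt.comp (g := f (p i)) (hfa _ _ hQ) ((pr _).analyticAt Q))
  have hY0 : (0 : Option (Fin (2 * (k + 2))) → ℝ) ∈ Ω := by simpa [Ω] using hY
  have h6 := h5.eqOn_zero_of_preconnected_of_eventuallyEq_zero hΩ hY0
    (eventually_zero_of_flat (h5 0 hY0) fun N => by simpa [Od] using hO N)
    (show z₀ ∈ Ω by simpa only [Ω, mem_ofPred_eq, hz₀] using hP)
  have h7 : (Matrix.of fun l l' : Fin (k + 2) => fderiv ℝ (ext f l) z₀ (v l')) = 1 := by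
    ext l l'
    exact hv l l'
  have h8 : (Matrix.of fun l l' : Fin (k + 2) => fderiv ℝ (ext f l) z₀ (v l')).det = 0 := h6
  rw [h7, Matrix.det_one] at h8
  exact one_ne_zero h8

theorem mero_dep (n : ℕ) [NeZero n] (odd : Odd n) (hn : 5 ≤ n) (t : ℝ) (ht : 0 < t)
    (G : Fin (n - 1) → (Fin n → ℂ) → ℝ) (H : (Fin n → ℂ) → ℝ)
    (hG : ∀ k, AnalyticOnNhd ℝ (G k) {P | IsPolygon P}) (hH : AnalyticOnNhd ℝ H {P | IsPolygon P})
    (tG : ∀ k P, IsPolygon P → ∀ c : ℂ, G k (fun i => P i + c) = G k P)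
    (tH : ∀ P, IsPolygon P → ∀ c : ℂ, H (fun i => P i + c) = H P)
    (h2 : ∀ k P, IsPolygon P → (∀ i, 2 * t < ‖rMap t P i - rMap t P (i - 1)‖) →
      (∀ i, 2 * t < ‖qMap t P i - qMap t P (i - 1)‖) → H (qMap t P) ≠ 0 → H (rMap t P) ≠ 0 →
      G k (qMap t P) / H (qMap t P) = G k (rMap t P) / H (rMap t P))
    (h3 : ∀ k l P, IsPolygon P → H P ≠ 0 → ∀ v,
      (∀ w, omegaForm v w = fderiv ℝ (fun Q => G k Q / H Q) P w) →
      fderiv ℝ (fun Q => G l Q / H Q) P v = 0) (P : Fin n → ℂ) (hP : IsPolygon P) (h0 : H P ≠ 0) :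
    ¬ LinearIndependent ℝ fun k => fderiv ℝ (fun Q => G k Q / H Q) P := by
  obtain ⟨m, rfl⟩ : ∃ m, n = m + 5 := ⟨n - 5, by omega⟩
  have hm : Even m := by
    obtain ⟨j, hj⟩ := odd
    exact ⟨j - 2, by omega⟩
  let F : Fin (m + 3 + 2) → (Fin (m + 5) → ℂ) → ℝ := Fin.cons H G
  have hF : ∀ l, AnalyticOnNhd ℝ (F l) {P | IsPolygon P} := Fin.cases hH hG
  have tF : ∀ l P, IsPolygon P → ∀ c : ℂ, F l (fun i => P i + c) = F l P := Fin.cases tH tG
  refine mero_of_dir (k := m + 3) (hm.add (by decide : Even 4)) (Y := pt m t 0 1)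
    (pt_polygon hm ht.ne' (by norm_num) (by norm_num) (by norm_num)) (omega_ww hm) F hF tF h3
    (fun Q D hQ => ?_) P hP h0
  have a1 : AnalyticOnNhd ℝ (cp F Q) {P | IsPolygon P} := fun P hP =>
    (ev_analytic Q _).comp (analyticAt_pi_iff.2 fun l => hF l P hP)
  have a2 : ContQ t (cp F Q) H D := fun X R hb b1 b2 => by
    have c1 : ∀ l, H R * F l X = H X * F l R := Fin.cases (mul_comm _ _) fun l => by
      have := br_zero ht (Ψ := fun x => (H x.2 * G l x.1 - H x.1 * G l x.2) * (H x.1 * H x.2))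
        (fun X R hX hR => by
          have p1 := fun (G : (Fin (m + 5) → ℂ) → ℝ) (h : AnalyticOnNhd ℝ G {P | IsPolygon P}) =>
            AnalyticAt.comp (g := G) (f := fun x : (Fin (m + 5) → ℂ) × (Fin (m + 5) → ℂ) => x.1)
              (x := (X, R)) (h X hX) analyticAt_fst
          have p2 := fun (G : (Fin (m + 5) → ℂ) → ℝ) (h : AnalyticOnNhd ℝ G {P | IsPolygon P}) =>
            AnalyticAt.comp (g := G) (f := fun x : (Fin (m + 5) → ℂ) × (Fin (m + 5) → ℂ) => x.2)
              (x := (X, R)) (h R hR) analyticAt_snd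
          exact (((p2 _ hH).mul (p1 _ (hG l))).sub ((p1 _ hH).mul (p2 _ (hG l)))).mul
            ((p1 _ hH).mul (p2 _ hH)))
        (fun P hP s1 s2 => by
          by_cases d1 : H (qMap t P) = 0
          · simp [d1]
          by_cases d2 : H (rMap t P) = 0
          · simp [d2]
          have := h2 l P hP s1 s2 d1 d2
          rw [div_eq_div_iff d1 d2] at this
          exact mul_eq_zero_of_left (by linear_combination this) _) hb
      exact sub_eq_zero.1 ((mul_eq_zero.1 this).resolve_right (mul_ne_zero b1 b2))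
    rw [mul_comm, mul_comm (cp F Q R), cp, cp, ← ev_hom hQ, ← ev_hom hQ]
    exact congrArg _ (funext c1)
  have a3 : ∀ P, IsPolygon P → ∀ c : ℂ, cp F Q (fun i => P i + c) = cp F Q P := fun P hP c => by
    simp only [cp, tF _ P hP c]
  exact ⟨dirQ_loop hm ht.ne' a2 a1 hH a3 tH, dirQ_mir hm ht.ne' a2 a1 hH a3 tH⟩

theorem mero_dep' (n : ℕ) [NeZero n] (odd : Odd n) (hn : 5 ≤ n) (t : ℝ) (ht : 0 < t)
    (G H : Fin (n - 1) → (Fin n → ℂ) → ℝ)
    (hG : ∀ k, AnalyticOnNhd ℝ (G k) {P | IsPolygon P})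
    (hH : ∀ k, AnalyticOnNhd ℝ (H k) {P | IsPolygon P})
    (tG : ∀ k P, IsPolygon P → ∀ c : ℂ, G k (fun i => P i + c) = G k P)
    (tH : ∀ k P, IsPolygon P → ∀ c : ℂ, H k (fun i => P i + c) = H k P)
    (h2 : ∀ k P, IsPolygon P → (∀ i, 2 * t < ‖rMap t P i - rMap t P (i - 1)‖) →
      (∀ i, 2 * t < ‖qMap t P i - qMap t P (i - 1)‖) → H k (qMap t P) ≠ 0 → H k (rMap t P) ≠ 0 →
      G k (qMap t P) / H k (qMap t P) = G k (rMap t P) / H k (rMap t P))
    (h3 : ∀ k l P, IsPolygon P → H k P ≠ 0 → H l P ≠ 0 → ∀ v,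
      (∀ w, omegaForm v w = fderiv ℝ (fun Q => G k Q / H k Q) P w) →
      fderiv ℝ (fun Q => G l Q / H l Q) P v = 0)
    (P : Fin n → ℂ) (hP : IsPolygon P) (h0 : ∀ k, H k P ≠ 0) :
    ¬ LinearIndependent ℝ fun k => fderiv ℝ (fun Q => G k Q / H k Q) P := by
  have ne : ∀ {Q}, ∏ l, H l Q ≠ 0 → ∀ l, H l Q ≠ 0 := fun h l =>
    Finset.prod_ne_zero_iff.1 h l (Finset.mem_univ l)
  have e1 : ∀ k Q, ∏ l, H l Q ≠ 0 →
      G k Q * (∏ l ∈ Finset.univ.erase k, H l Q) / ∏ l, H l Q = G k Q / H k Q := fun k Q h => by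
    rw [← Finset.mul_prod_erase _ _ (Finset.mem_univ k), mul_div_mul_right]
    exact Finset.prod_ne_zero_iff.2 fun l _ => ne h l
  have a1 : AnalyticOnNhd ℝ (fun Q => ∏ l, H l Q) {P | IsPolygon P} := fun Q hQ =>
    Finset.analyticAt_fun_prod _ fun l _ => hH l Q hQ
  have e2 : ∀ k Q, IsPolygon Q → ∏ l, H l Q ≠ 0 →
      fderiv ℝ (fun Q => G k Q * (∏ l ∈ Finset.univ.erase k, H l Q) / ∏ l, H l Q) Q =
        fderiv ℝ (fun Q => G k Q / H k Q) Q := fun k Q hQ h =>
    EventuallyEq.fderiv_eq (((a1 Q hQ).continuousAt.eventually_ne h).mono fun X hX => e1 k X hX)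
  have h4 : ∏ l, H l P ≠ 0 := Finset.prod_ne_zero_iff.2 fun l _ => h0 l
  have := mero_dep n odd hn t ht (fun k Q => G k Q * ∏ l ∈ Finset.univ.erase k, H l Q)
    (fun Q => ∏ l, H l Q)
    (fun k Q hQ => (hG k Q hQ).mul (Finset.analyticAt_fun_prod _ fun l _ => hH l Q hQ)) a1
    (fun k Q hQ c => by simp only [tG _ Q hQ c, tH _ Q hQ c])
    (fun Q hQ c => by simp only [tH _ Q hQ c])
    (fun k Q hQ s1 s2 d1 d2 => by
      rw [e1 k _ d1, e1 k _ d2]
      exact h2 k Q hQ s1 s2 (ne d1 k) (ne d2 k))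
    (fun k l Q hQ d v hv => by
      rw [e2 l Q hQ d]
      exact h3 k l Q hQ (ne d k) (ne d l) v (by simpa only [e2 k Q hQ d] using hv)) P hP h4
  simpa only [e2 _ P hP h4] using this

end Pool.Agent.MP_62f0b1_an.Ft
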